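import Pool.Agent.Helper57.PD.FaceDet

/-!
# The lower half of the bounds for the face determinant
-/

set_option autoImplicit false

namespace Pool.Agent.Helper43.GD

open Matrix Pool.Agent.Helper48.EV2

theorem det_lower {V : Type*} [Fintype V] [DecidableEq V] (S : Matrix V V ℂ) {lo : ℝ} (h0 : 0 ≤ lo)
    (hlo : ∀ y : V → ℂ, ∀ F : ℝ, (∀ v, ‖(S *ᵥ y) v‖ ≤ F) → ∀ v, lo * ‖y v‖ ≤ F) :
    lo ^ Fintype.card V ≤ ‖S.det‖ := by
  refine (det_of_sup S h0 hlo (hi := ∑ v, ∑ w, ‖S v w‖) ?_).1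
  intro y M hM v
  have hM0 : 0 ≤ M := (norm_nonneg _).trans (hM v)
  have h1 : ‖(S *ᵥ y) v‖ ≤ ∑ w, ‖S v w‖ * M := by
    unfold Matrix.mulVec dotProduct
    refine (norm_sum_le _ _).trans (Finset.sum_le_sum fun w _ => ?_)
    rw [norm_mul]
    exact mul_le_mul_of_nonneg_left (hM w) (norm_nonneg _)
  refine h1.trans ?_
  rw [← Finset.sum_mul]
  refine mul_le_mul_of_nonneg_right ?_ hM0
  exact Finset.single_le_sum (f := fun v => ∑ w, ‖S v w‖) (fun v _ => Finset.sum_nonneg fun w _ => norm_nonneg _) (Finset.mem_univ v)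

/-- the macro lemma, lower half: the nodes outside `P` are eliminated (their determinant is `1`) -/
theorem macro_lower {V : Type*} [Fintype V] [DecidableEq V] (A : Matrix V V ℂ) (P : V → Prop)
    [DecidablePred P]
    (hD : (A.submatrix (Subtype.val : {v // ¬ P v} → V) Subtype.val).det = 1) {lo : ℝ}
    (h0 : 0 ≤ lo)
    (hlo : ∀ y : V → ℂ, ∀ F : ℝ, (∀ v, ¬ P v → (A *ᵥ y) v = 0) →
      (∀ v, P v → ‖(A *ᵥ y) v‖ ≤ F) → ∀ v, P v → lo * ‖y v‖ ≤ F) :
    lo ^ Fintype.card {v // P v} ≤ ‖A.det‖ := by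
  classical
  set e : {v // P v} ⊕ {v // ¬ P v} ≃ V := Equiv.sumCompl P with he
  set A11 : Matrix {v // P v} {v // P v} ℂ := A.submatrix Subtype.val Subtype.val with h11
  set A12 : Matrix {v // P v} {v // ¬ P v} ℂ := A.submatrix Subtype.val Subtype.val with h12
  set A21 : Matrix {v // ¬ P v} {v // P v} ℂ := A.submatrix Subtype.val Subtype.val with h21
  set A22 : Matrix {v // ¬ P v} {v // ¬ P v} ℂ := A.submatrix Subtype.val Subtype.val with h22
  have hblock : A.submatrix e e = fromBlocks A11 A12 A21 A22 := by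
    ext i j
    rcases i with i | i <;> rcases j with j | j <;> simp [he, h11, h12, h21, h22, fromBlocks]
  have hu : IsUnit A22.det := by rw [hD]; exact isUnit_one
  set S : Matrix {v // P v} {v // P v} ℂ := A11 - A12 * A22⁻¹ * A21 with hS
  have hdet : A.det = S.det := by
    have : Invertible A22 := A22.invertibleOfIsUnitDet hu
    rw [← det_submatrix_equiv_self e A, hblock, det_fromBlocks₂₂, hD, one_mul, invOf_eq_nonsing_inv]
  -- the extension of a vector on `P`
  have hext : ∀ x : {v // P v} → ℂ, ∃ y : V → ℂ, (∀ v : {v // P v}, y v = x v) ∧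
      (∀ v, ¬ P v → (A *ᵥ y) v = 0) ∧ ∀ v : {v // P v}, (A *ᵥ y) v = (S *ᵥ x) v := by
    intro x
    set z : {v // ¬ P v} → ℂ := - (A22⁻¹ *ᵥ (A21 *ᵥ x)) with hz
    set y : V → ℂ := fun v => Sum.elim x z (e.symm v) with hy
    have hye : y ∘ e = Sum.elim x z := by
      ext i
      simp [hy]
    have hmul : (A *ᵥ y) ∘ e = fromBlocks A11 A12 A21 A22 *ᵥ Sum.elim x z := by
      rw [← hblock, ← hye]
      ext i
      simp only [Function.comp, mulVec, dotProduct, submatrix_apply]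
      exact (Equiv.sum_comp e (fun v => A (e i) v * y v)).symm
    rw [fromBlocks_mulVec] at hmul
    have hA1 : ∀ v : {v // P v}, (A *ᵥ y) v = (A11 *ᵥ x + A12 *ᵥ z) v := by
      intro v
      have := congrFun hmul (Sum.inl v)
      simpa [he] using this
    have hA2 : ∀ v : {v // ¬ P v}, (A *ᵥ y) v = (A21 *ᵥ x + A22 *ᵥ z) v := by
      intro v
      have := congrFun hmul (Sum.inr v)
      simpa [he] using this
    refine ⟨y, fun v => ?_, fun v hv => ?_, fun v => ?_⟩
    · have := congrFun hye (Sum.inl v)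
      simpa [he] using this
    · have := hA2 ⟨v, hv⟩
      rw [hz, mulVec_neg, mulVec_mulVec, mul_nonsing_inv _ hu, one_mulVec] at this
      simpa using this
    · rw [hA1 v, hz, hS, mulVec_neg, sub_mulVec, mulVec_mulVec, mulVec_mulVec,
        ← sub_eq_add_neg, Matrix.mul_assoc]
  have := det_lower S h0 (fun x F hF v => by
      obtain ⟨y, h1, h2, h3⟩ := hext x
      have := hlo y F h2 (fun w hw => by
        have := hF ⟨w, hw⟩
        rw [← h3 ⟨w, hw⟩] at this
        exact this) v v.2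
      rwa [h1] at this)
  rw [hdet]
  exact this

section

open Pool.Agent.Helper57.PD Pool.Agent.Helper57.PD.Fd

variable {X Fc : Type} [Fintype X] [Fintype Fc]

open Classical in
/-- **The lower bound.** -/
theorem fd_lower (D : Fd X Fc) {sp : X → Prop} {tau : X → ℕ} (h : D.Tm sp tau) (a b d : ℂ) {lo : ℝ} (h0 : 0 ≤ lo)
    (lower : ∀ c : Fc → ℂ, ∀ F : ℝ, c D.f₁ = 0 → c D.f₂ = 0 → (∀ x, ¬ sp x → D.row a b d c x = 0) →
      (∀ x, sp x → ‖D.row a b d c x‖ ≤ F) → ∀ f, f ≠ D.f₁ → f ≠ D.f₂ → (∀ x, ¬ sp x → D.N x ≠ f) → lo * ‖c f‖ ≤ F)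
    (e : X ≃ D.Col) :
    lo ^ Fintype.card {x // sp x} ≤ ‖((D.A a b d).submatrix id e).det‖ := by
  obtain ⟨e', he'⟩ := D.exists_equiv h
  rw [norm_det_equiv D e e']
  -- from vectors on the crossings to vectors on the faces
  let ext : (X → ℂ) → Fc → ℂ := fun y f => if hf : f ≠ D.f₁ ∧ f ≠ D.f₂ then y (e'.symm ⟨f, hf⟩) else 0
  have x1 : ∀ y, ext y D.f₁ = 0 := fun y => by
    simp only [ext]
    rw [dif_neg (fun h1 => h1.1 rfl)]
  have x2 : ∀ y, ext y D.f₂ = 0 := fun y => by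
    simp only [ext]
    rw [dif_neg (fun h1 => h1.2 rfl)]
  have x3 : ∀ y x, ext y (e' x).1 = y x := fun y x => by
    simp only [ext]
    rw [dif_pos (e' x).2]
    congr 1
    exact e'.symm_apply_apply x
  have x4 : ∀ y x, (((D.A a b d).submatrix id e') *ᵥ y) x = D.row a b d (ext y) x := by
    intro y x
    rw [← D.mulVec_row a b d (ext y) (x1 y) (x2 y) x]
    show ∑ z, D.A a b d x (e' z) * y z = _
    rw [← Equiv.sum_comp e' fun f => D.A a b d x f * ext y f.1]
    exact Finset.sum_congr rfl fun z _ => by rw [x3]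
  refine macro_lower _ sp (D.det_inner h e' he' a b d) h0 ?_
  · intro y F hy hF v hv
    have h2 := lower (ext y) F (x1 y) (x2 y) (fun x hx => by rw [← x4]; exact hy x hx)
      (fun x hx => by rw [← x4]; exact hF x hx) (e' v).1 (e' v).2.1 (e' v).2.2 (fun x hx hNx => by
        have h3 : e' x = e' v := Subtype.ext (by rw [he' x hx, hNx])
        have h4 := e'.injective h3
        rw [h4] at hx
        exact hx hv)
    rwa [x3] at h2

/-- **The lower bound**, with arbitrary instances. -/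
theorem fd_lower' [inst : DecidableEq X] (D : Fd X Fc) {sp : X → Prop} {tau : X → ℕ} (h : D.Tm sp tau) (a b d : ℂ) {lo : ℝ}
    (h0 : 0 ≤ lo)
    (lower : ∀ c : Fc → ℂ, ∀ F : ℝ, c D.f₁ = 0 → c D.f₂ = 0 → (∀ x, ¬ sp x → D.row a b d c x = 0) →
      (∀ x, sp x → ‖D.row a b d c x‖ ≤ F) → ∀ f, f ≠ D.f₁ → f ≠ D.f₂ → (∀ x, ¬ sp x → D.N x ≠ f) → lo * ‖c f‖ ≤ F)
    (e : X ≃ D.Col) : lo ^ Nat.card {x // sp x} ≤ ‖((D.A a b d).submatrix id e).det‖ := by
  obtain rfl : inst = fun x y => Classical.propDecidable (x = y) := Subsingleton.elim _ _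
  classical
  have h1 := fd_lower D h a b d h0 lower e
  rw [Nat.card_eq_fintype_card]
  exact h1

end

end Pool.Agent.Helper43.GD
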