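import Pool.Agent.Helper43.GD.Lo
import Pool.Agent.Helper57.GD.Half

/-!
# The lower bound in the form of `Helper57.GD.Half`
-/

set_option autoImplicit false

namespace Pool.Agent.Helper43.GD

open Polynomial Pool.Agent.Helper85.Exp Pool.Agent.Helper60.EV2 Pool.Agent.Helper2.PD Pool.Agent.Helper16.PD
  Pool.Agent.Helper27.EV2 Pool.Agent.Helper57.PD

variable {P : Type} {G : Sh P}

theorem root_arsinh {y : ℝ} (hy : 0 < y) : 0 < Real.exp (-Real.arsinh (y / 2)) ∧ Real.exp (-Real.arsinh (y / 2)) < 1 ∧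
    (Real.exp (-Real.arsinh (y / 2)))⁻¹ - Real.exp (-Real.arsinh (y / 2)) = y ∧
    (Real.exp (-Real.arsinh (y / 2)))⁻¹ ≤ 1 + y := by
  have h0 : 0 < Real.arsinh (y / 2) := Real.arsinh_pos_iff.2 (by positivity)
  have h1 : (Real.exp (-Real.arsinh (y / 2)))⁻¹ - Real.exp (-Real.arsinh (y / 2)) = y := by
    rw [← Real.exp_neg, neg_neg]
    have h2 := Real.sinh_arsinh (y / 2)
    rw [Real.sinh_eq] at h2
    linarith
  have h2 : Real.exp (-Real.arsinh (y / 2)) < 1 := by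
    rw [Real.exp_lt_one_iff]
    linarith
  exact ⟨Real.exp_pos _, h2, h1, by linarith⟩

/-- the polynomial at a positive number -/
theorem norm_aeval_of_nn {p : ℤ[X]} (hp : ∀ k, 0 ≤ p.coeff k) {y : ℝ} (hy : 0 ≤ y) : ‖aeval (y : ℂ) p‖ = aeval y p := by
  have h1 : aeval (y : ℂ) p = ((aeval y p : ℝ) : ℂ) := by
    have := aeval_algebraMap_apply ℂ y p
    simpa using this
  have h2 : 0 ≤ aeval y p := by
    rw [aeval_eq_sum_range]
    refine Finset.sum_nonneg fun k _ => ?_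
    rw [zsmul_eq_mul]
    have : (0 : ℝ) ≤ (p.coeff k : ℝ) := by exact_mod_cast hp k
    positivity
  rw [h1, Complex.norm_real, Real.norm_of_nonneg h2]

/-- **The lower bound on the positive axis.** -/
theorem loZ [Fintype P] {n : ℕ} (h : Good n G) (hne : Nonempty P) {nab : Dg G → ℤ[X]} (hn : Cs nab) {R : ℝ} (hR : 1 ≤ R) :
    Pool.Agent.Helper57.GD.LoZ (Mn n * (Real.log (12 * (n * n * n : ℕ) * Mn n) + (10 * n + 2 : ℕ) * Real.log (1 + √R))) (2 * Mn n) R
      (Nat.card (Cr G)) (nab (allPos G)) := by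
  intro y hy hyR
  obtain ⟨x, hx⟩ : ∃ x, x = Real.exp (-Real.arsinh (y / 2)) := ⟨_, rfl⟩
  obtain ⟨r0, r1, r2, r3⟩ := root_arsinh hy
  rw [← hx] at r0 r1 r2 r3
  have hn1 : 1 ≤ n := by
    obtain ⟨C, τ, H, Bs, x0, h1, h2, h3, h5, hx0⟩ := exists_data h hne
    have hC : 1 ≤ C.card := Finset.card_pos.2 ⟨x0, hx0⟩
    by_contra hcon
    have : n = 0 := by omega
    rw [this] at h1
    omega
  have hn3 : (0 : ℝ) < (n * n * n : ℕ) := by
    have : 0 < n * n * n := by positivity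
    exact_mod_cast this
  have hM0 : (0 : ℝ) < Mn n := by
    have : 0 < Mn n := by
      unfold Mn
      omega
    exact_mod_cast this
  have key := lo_nab h hne hn r0 r1
  have e1 : ((x : ℂ)⁻¹ - x) = ((y : ℝ) : ℂ) := by
    rw [← r2]
    push_cast
    rfl
  have hnn := (Pool.Agent.Helper60.PD.nab_nn h.ho hn).1
  rw [e1, norm_aeval_of_nn hnn hy.le] at key
  -- the power of `1 / x`
  have e2 : (x⁻¹) ^ Nat.card (Cr G) = Real.exp (Nat.card (Cr G) * EVC.A (y ^ 2)) := by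
    unfold EVC.A
    rw [Real.sqrt_sq hy.le, hx, ← Real.exp_neg, neg_neg, ← Real.exp_nat_mul]
  rw [e2] at key
  -- the constant
  have hsR : y ≤ √R := Real.le_sqrt_of_sq_le hyR
  have hB : 0 < 1 + √R := by positivity
  obtain ⟨D, hD⟩ : ∃ D : ℝ, D = 12 * (n * n * n : ℕ) * Mn n * (1 + √R) ^ (10 * n + 2) := ⟨_, rfl⟩
  have hD0 : 0 < D := by
    rw [hD]
    positivity
  have hlo : min 1 y ^ 2 ≤ D * loC n x := by
    have g1 : 1 - x ^ 2 = x * y := by
      rw [← r2]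
      field_simp
    have g2 : D * loC n x = (1 + √R) ^ (10 * n + 2) * (x ^ (10 * n + 2) * y ^ 2) := by
      unfold loC
      rw [g1, hD]
      field_simp
      ring
    have g3 : 1 ≤ (1 + √R) * x := by
      have h1 : x⁻¹ ≤ 1 + √R := by linarith
      have h2 := mul_le_mul_of_nonneg_right h1 r0.le
      rwa [inv_mul_cancel₀ r0.ne'] at h2
    have g4 : 1 ≤ ((1 + √R) * x) ^ (10 * n + 2) := one_le_pow₀ g3
    rw [mul_pow] at g4
    have g5 : min 1 y ^ 2 ≤ y ^ 2 := pow_le_pow_left₀ (by positivity) (min_le_right _ _) 2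
    rw [g2, ← mul_assoc]
    nlinarith [sq_nonneg y]
  have hpow : min 1 y ^ (2 * Mn n) ≤ D ^ Mn n * loC n x ^ Mn n := by
    rw [pow_mul, ← mul_pow]
    exact pow_le_pow_left₀ (by positivity) hlo _
  have e3 : D ^ Mn n = Real.exp (Mn n * (Real.log (12 * (n * n * n : ℕ) * Mn n) + (10 * n + 2 : ℕ) * Real.log (1 + √R))) := by
    rw [Real.exp_nat_mul, Real.exp_add, Real.exp_log (by positivity), Real.exp_nat_mul, Real.exp_log hB, hD]
  rw [← e3]
  calc Real.exp (Nat.card (Cr G) * EVC.A (y ^ 2)) * min 1 y ^ (2 * Mn n)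
      ≤ Real.exp (Nat.card (Cr G) * EVC.A (y ^ 2)) * (D ^ Mn n * loC n x ^ Mn n) :=
        mul_le_mul_of_nonneg_left hpow (Real.exp_pos _).le
    _ = D ^ Mn n * (Real.exp (Nat.card (Cr G) * EVC.A (y ^ 2)) * loC n x ^ Mn n) := by ring
    _ ≤ D ^ Mn n * aeval y (nab (allPos G)) := mul_le_mul_of_nonneg_left key (by positivity)

end Pool.Agent.Helper43.GD
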