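import Pool.Agent.Helper43.GD.Num
import Pool.Agent.Helper43.GD.LoZ
import Pool.Agent.Helper2.GD.NZ
import Pool.Agent.Helper61.GD.Leg2
import Pool.Agent.Helper85.GD.FarFZ

/-!
# GPOLY with explicit constants
-/

set_option autoImplicit false

namespace Pool.Agent.Helper43.GD

open Polynomial Pool.Agent.Helper85.Exp Pool.Agent.Helper60.EV2 Pool.Agent.Helper2.PD Pool.Agent.Helper57.EV
  Pool.Agent.Helper57.PD Pool.Agent.Helper27.EV2 Pool.Agent.Helper16.PD Pool.Agent.Helper57.GD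

/-- the radius up to which bounds are needed -/
noncomputable def RR (s : ℕ) : ℝ := ((10 : ℝ) ^ 13 * (s : ℝ) ^ 3) ^ 2

/-- the upper bounds -/
def UpX (m : ℕ) : Prop := ∀ (s : ℕ) (P : Type) [Fintype P] (G : Sh P), Good s G → Nonempty P →
  ∀ nab : Dg G → ℤ[X], Cs nab → ∃ (A : ℝ) (N : ℕ), A ≤ 10 ^ 9 * (s : ℝ) ^ m * (1 + Real.log (RR s)) ∧
    (N : ℝ) ≤ 10 ^ 9 * (s : ℝ) ^ m ∧
    UpZ A N (1 / (256 * (RR s * √(RR s)))) (RR s) (Nat.card (Cr G)) (nab (allPos G))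

/-- no zeros near the positive axis -/
def NZX (B : ℝ) (b : ℕ) : Prop := ∀ (s : ℕ) (P : Type) [Fintype P] (G : Sh P), Good s G → Nonempty P →
  ∀ nab : Dg G → ℤ[X], Cs nab → NZ (1 / (B * (s : ℝ) ^ b)) (nab (allPos G))

theorem good_pos {P : Type} [Fintype P] {G : Sh P} {s : ℕ} (hG : Good s G) (hne : Nonempty P) : 1 ≤ s := by
  obtain ⟨C, τ, H, Bs, x0, h1, h2, h3, h5, hx0⟩ := exists_data hG hne
  have hC : 1 ≤ C.card := Finset.card_pos.2 ⟨x0, hx0⟩
  by_contra hcon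
  have : s = 0 := by omega
  rw [this] at h1
  omega

theorem farB (s : ℕ) : Pool.Agent.Helper2.GD.FarB s ((1003 * (s : ℝ)) ^ 2) := by
  intro P _ G h hne nab hn z hz
  exact Pool.Agent.Helper85.GD.fz h hn z hz

/-- the zero free strip from a second leg with `c₀ = 1 / (10 ^ 4 s)` -/
theorem nzx_of {B : ℝ} {b : ℕ} (hB : 10 ^ 5 ≤ B) (hb : 1 ≤ b)
    (hL : ∀ s : ℕ, 1 ≤ s → Pool.Agent.Helper2.GD.Leg2 s (10 * (1 / (B * (s : ℝ) ^ b))) (1 / (10 ^ 4 * (s : ℝ)))) : NZX B b := by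
  intro s P _ G hG hne nab hn
  have hs := good_pos hG hne
  have hS : (1 : ℝ) ≤ s := by exact_mod_cast hs
  have hS0 : (0 : ℝ) < s := by linarith
  have hB0 : 0 < B := by linarith
  obtain ⟨bb⟩ := hne
  have hL' := hL s hs
  obtain ⟨w, hw⟩ : ∃ w : ℝ, w = 1 / (B * (s : ℝ) ^ b) := ⟨_, rfl⟩
  rw [← hw] at hL' ⊢
  have hSb : (s : ℝ) ≤ (s : ℝ) ^ b := by
    calc (s : ℝ) = (s : ℝ) ^ 1 := (pow_one _).symm
      _ ≤ _ := pow_le_pow_right₀ hS hb
  have hw0 : 0 < w := by rw [hw]; positivity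
  obtain ⟨v, hv⟩ : ∃ v : ℝ, v = 1 / (s : ℝ) := ⟨_, rfl⟩
  have hv0 : 0 < v := by rw [hv]; positivity
  have hv1 : v ≤ 1 := by
    rw [hv, div_le_one hS0]
    exact hS
  have hwle : w ≤ v / 10 ^ 5 := by
    rw [hw, hv, div_div]
    apply one_div_le_one_div_of_le (by positivity)
    calc (s : ℝ) * 10 ^ 5 = 10 ^ 5 * s := mul_comm _ _
      _ ≤ B * (s : ℝ) ^ b := mul_le_mul hB hSb hS0.le hB0.le
  have hc0 : 1 / (10 ^ 4 * (s : ℝ)) = v / 10 ^ 4 := by
    rw [hv]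
    field_simp
  rw [hc0] at hL'
  have hfar : 4 * (v / 10 ^ 4) + 10 * w / 10 ≤ 1 / (√((1003 * (s : ℝ)) ^ 2) + 1) := by
    rw [Real.sqrt_sq (by positivity), le_div_iff₀ (by positivity)]
    have h1 : 4 * (v / 10 ^ 4) + 10 * w / 10 ≤ 5 * v / 10 ^ 4 := by linarith
    calc (4 * (v / 10 ^ 4) + 10 * w / 10) * (1003 * (s : ℝ) + 1) ≤ (5 * v / 10 ^ 4) * (1003 * s + s) := by
          apply mul_le_mul h1 (by linarith) (by positivity) (by positivity)
      _ = (5 * 1004 / 10 ^ 4) * (v * s) := by ring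
      _ = 5 * 1004 / 10 ^ 4 := by
          rw [hv, one_div, inv_mul_cancel₀ hS0.ne', mul_one]
      _ ≤ 1 := by norm_num
  have key := Pool.Agent.Helper2.GD.nz (w₀ := 10 * w) (c₀ := v / 10 ^ 4) (by positivity) (by linarith) (by linarith) hfar
    hL' (farB s) hG bb hn
  have e1 : 10 * w / 10 = w := by ring
  rwa [e1] at key

/-- with `Helper61`'s second leg -/
theorem nzx61 : NZX (10 ^ 47) 19 := by
  refine nzx_of (by norm_num) (by norm_num) fun s hs => ?_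
  have hS : (1 : ℝ) ≤ s := by exact_mod_cast hs
  have hS0 : (0 : ℝ) < s := by linarith
  apply Pool.Agent.Helper61.GD.leg2 (by positivity)
  · apply one_div_le_one_div_of_le (by norm_num)
    linarith
  · positivity
  · have h1 : ((s : ℝ) + 1) ^ 10 ≤ (2 * s) ^ 10 := pow_le_pow_left₀ (by positivity) (by linarith) 10
    calc 10 ^ 6 * ((s : ℝ) + 1) ^ 10 * (10 * (1 / (10 ^ 47 * (s : ℝ) ^ 19)))
        ≤ 10 ^ 6 * (2 * s) ^ 10 * (10 * (1 / (10 ^ 47 * (s : ℝ) ^ 19))) := by gcongr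
      _ = (10 ^ 7 * 2 ^ 10 / 10 ^ 47) * (1 / (s : ℝ) ^ 9) := by
          field_simp
      _ ≤ (1 / 10 ^ 36) * (1 / (s : ℝ) ^ 9) := by
          apply mul_le_mul_of_nonneg_right (by norm_num) (by positivity)
      _ = (1 / (10 ^ 4 * (s : ℝ))) ^ 9 := by
          rw [div_pow, mul_pow]
          field_simp

/-- the lower bound -/
theorem loZ_x {P : Type} [Fintype P] {G : Sh P} {s : ℕ} (hG : Good s G) (hne : Nonempty P) {nab : Dg G → ℤ[X]} (hn : Cs nab) :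
    LoZ (156 * (s : ℝ) ^ 4 * (1 + Real.log (RR s))) (24 * s ^ 3) (RR s) (Nat.card (Cr G)) (nab (allPos G)) := by
  have hs := good_pos hG hne
  have hS : (1 : ℝ) ≤ s := by exact_mod_cast hs
  have hS0 : (0 : ℝ) < s := by linarith
  have hS3 : (1 : ℝ) ≤ (s : ℝ) ^ 3 := one_le_pow₀ hS
  have hR1 : 1 ≤ RR s := by
    unfold RR
    exact one_le_pow₀ (one_le_mul_of_one_le_of_one_le (by norm_num) hS3)
  have hsq : √(RR s) = 10 ^ 13 * (s : ℝ) ^ 3 := by
    unfold RR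
    exact Real.sqrt_sq (by positivity)
  have hlR : 0 ≤ Real.log (RR s) := Real.log_nonneg hR1
  have hMn : Mn s ≤ 12 * s ^ 3 := by
    unfold Mn
    have h1 : s ≤ s ^ 3 := Nat.le_self_pow (by norm_num) s
    have h2 : s * s * s = s ^ 3 := by ring
    omega
  have hMnR : (Mn s : ℝ) ≤ 12 * (s : ℝ) ^ 3 := by exact_mod_cast hMn
  have hMn0 : (0 : ℝ) ≤ Mn s := Nat.cast_nonneg _
  have hMn1 : (1 : ℝ) ≤ Mn s := by
    have : 1 ≤ Mn s := by
      unfold Mn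
      omega
    exact_mod_cast this
  have h3 : ((s * s * s : ℕ) : ℝ) = (s : ℝ) ^ 3 := by
    push_cast
    ring
  refine (loZ hG hne hn hR1).mono ?_ (by omega)
  have g1 : Real.log (12 * (s * s * s : ℕ) * Mn s) ≤ 1 + Real.log (RR s) := by
    have h4 : 12 * ((s * s * s : ℕ) : ℝ) * Mn s ≤ RR s := by
      rw [h3]
      calc 12 * (s : ℝ) ^ 3 * Mn s ≤ 12 * (s : ℝ) ^ 3 * (12 * (s : ℝ) ^ 3) := by gcongr
        _ = 144 * ((s : ℝ) ^ 3) ^ 2 := by ring
        _ ≤ (10 ^ 13) ^ 2 * ((s : ℝ) ^ 3) ^ 2 := by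
            apply mul_le_mul_of_nonneg_right (by norm_num) (by positivity)
        _ = RR s := by
            unfold RR
            ring
    have h5 : 0 < 12 * ((s * s * s : ℕ) : ℝ) * Mn s := by
      rw [h3]
      positivity
    have := Real.log_le_log h5 h4
    linarith
  have g2 : Real.log (1 + √(RR s)) ≤ 1 + Real.log (RR s) := by
    have h6 : 1 ≤ √(RR s) := by
      rw [Real.one_le_sqrt]
      exact hR1
    have h7 : √(RR s) ≤ RR s := by
      rw [Real.sqrt_le_left (by linarith)]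
      nlinarith
    calc Real.log (1 + √(RR s)) ≤ Real.log (2 * RR s) := Real.log_le_log (by positivity) (by linarith)
      _ = Real.log 2 + Real.log (RR s) := Real.log_mul (by norm_num) (by linarith)
      _ ≤ 1 + Real.log (RR s) := by
        have := Real.log_two_lt_d9
        linarith
  have g3 : ((10 * s + 2 : ℕ) : ℝ) ≤ 12 * s := by
    push_cast
    linarith
  have g4 : ((10 * s + 2 : ℕ) : ℝ) * Real.log (1 + √(RR s)) ≤ 12 * s * (1 + Real.log (RR s)) := by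
    apply mul_le_mul g3 g2 (Real.log_nonneg (by linarith [Real.sqrt_nonneg (RR s)])) (by positivity)
  calc (Mn s : ℝ) * (Real.log (12 * (s * s * s : ℕ) * Mn s) + (10 * s + 2 : ℕ) * Real.log (1 + √(RR s)))
      ≤ Mn s * (13 * s * (1 + Real.log (RR s))) := by
        apply mul_le_mul_of_nonneg_left _ hMn0
        nlinarith
    _ ≤ (12 * (s : ℝ) ^ 3) * (13 * s * (1 + Real.log (RR s))) := by
        apply mul_le_mul_of_nonneg_right hMnR
        positivity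
    _ = 156 * (s : ℝ) ^ 4 * (1 + Real.log (RR s)) := by ring

/-- **GPOLY with explicit constants**, from the strip and the upper bounds. -/
theorem expl_gen {B : ℝ} {b a D m : ℕ} (hm4 : 4 ≤ m) (ha : 27 ≤ a) (ha' : a ≤ 333) (hD : 6 ≤ D) (hDa : D ≤ a) (hB0 : 1 ≤ B)
    (hB : (10 : ℝ) ^ 173 * B ^ 3 ≤ 10 ^ a) (hb : 28 + m + 3 * b ≤ D) (hNZ : NZX B b) (hU : UpX m) :
    ∀ (P : Type) [Fintype P] (G : Sh P), Pool.Agent.Helper43.Pln.Plane G → ∀ nab : Dg G → ℤ[X], Cs nab →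
      10 ^ a * Pool.Agent.Helper43.Pln.circles G ^ D ≤ Pool.Agent.Helper43.Pln.crossings G →
      Pool.Agent.Helper43.Pln.LogConcave G nab := by
  intro P _ G hP nab hn hm
  have hne := Pool.Agent.Helper43.Pln.nonempty_of hP
  have e1 : sg G = Pool.Agent.Helper43.Pln.seifert G := by
    ext i
    rfl
  obtain ⟨s, hs⟩ : ∃ s, s = Pool.Agent.Helper43.Pln.circles G := ⟨_, rfl⟩
  have hG : Good s G := ⟨hP.cross, hP.conn, hP.genus, by
    unfold circ
    rw [e1, hs]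
    exact le_rfl⟩
  rw [← hs] at hm
  have hs1 := good_pos hG hne
  have hS : (1 : ℝ) ≤ s := by exact_mod_cast hs1
  have hS0 : (0 : ℝ) < s := by linarith
  have hmc : 10 ^ a * s ^ D ≤ Nat.card (Cr G) := hm
  have hmR : (10 : ℝ) ^ a * (s : ℝ) ^ D ≤ (Nat.card (Cr G) : ℕ) := by exact_mod_cast hmc
  have hR1 : 1 ≤ RR s := by
    unfold RR
    exact one_le_pow₀ (one_le_mul_of_one_le_of_one_le (by norm_num) (one_le_pow₀ hS))
  have hlR : 0 ≤ Real.log (RR s) := Real.log_nonneg hR1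
  have h1 := hNZ s P G hG hne nab hn
  have h2 := Pool.Agent.Helper85.GD.fz hG hn
  have h3 := loZ_x hG hne hn
  obtain ⟨A', N', hA', hN', h4⟩ := hU s P G hG hne nab hn
  have hS4 : (1 : ℝ) ≤ (s : ℝ) ^ 4 := one_le_pow₀ hS
  have hS4m : (s : ℝ) ^ 4 ≤ (s : ℝ) ^ m := pow_le_pow_right₀ hS hm4
  obtain ⟨A, hA⟩ : ∃ A : ℝ, A = 10 ^ 9 * (s : ℝ) ^ m * (1 + Real.log (RR s)) := ⟨_, rfl⟩
  obtain ⟨N, hN⟩ : ∃ N : ℕ, N = 10 ^ 9 * s ^ m := ⟨_, rfl⟩
  have hNR : (N : ℝ) = 10 ^ 9 * (s : ℝ) ^ m := by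
    rw [hN]
    push_cast
    norm_num
  have hA0 : 0 ≤ A := by
    rw [hA]
    positivity
  have hN1 : 1 ≤ N := by
    rw [hN]
    have : 0 < s ^ m := by positivity
    omega
  have hNN : N' ≤ N := by
    have : (N' : ℝ) ≤ N := by rw [hNR]; exact hN'
    exact_mod_cast this
  have h3' : LoZ A N (RR s) (Nat.card (Cr G)) (nab (allPos G)) := h3.mono (by
    rw [hA]
    apply mul_le_mul_of_nonneg_right _ (by linarith)
    nlinarith) (by
    rw [hN]
    have : s ^ 3 ≤ s ^ m := Nat.pow_le_pow_right hs1 (by omega)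
    omega)
  have h4' : UpZ A N (1 / (256 * (RR s * √(RR s)))) (RR s) (Nat.card (Cr G)) (nab (allPos G)) :=
    h4.mono (by rw [hA]; exact hA') hNN
  have hβ0 : 0 < 1 / (B * (s : ℝ) ^ b) := by positivity
  have hβ1 : 1 / (B * (s : ℝ) ^ b) ≤ 1 := by
    rw [div_le_one (by positivity)]
    exact one_le_mul_of_one_le_of_one_le hB0 (one_le_pow₀ hS)
  have hpn := pn_of hG hne hn hβ0 h1
  have key := one_x (K := 256) (Q := 10 ^ 13 * (s : ℝ) ^ 3) (T := (1003 * (s : ℝ)) ^ 2) (A := A) (N := N) hpn (by norm_num)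
    hβ0 hβ1 (one_le_pow₀ (by linarith)) (by
      have : (1 : ℝ) ≤ (s : ℝ) ^ 3 := one_le_pow₀ hS
      linarith) (by
      have h5 : (s : ℝ) ^ 2 ≤ (s : ℝ) ^ 6 := pow_le_pow_right₀ hS (by norm_num)
      have h6 : (1 : ℝ) ≤ (s : ℝ) ^ 2 := one_le_pow₀ hS
      have e2 : (1003 * (s : ℝ)) ^ 2 + 800 * 256 ^ 2 * ((1003 * (s : ℝ)) ^ 2) ^ 3 = 1003 ^ 2 * (s : ℝ) ^ 2 + 800 * 256 ^ 2 * 1003 ^ 6 * (s : ℝ) ^ 6 := by
        ring
      have e3 : (10 ^ 13 * (s : ℝ) ^ 3) ^ 2 = 10 ^ 26 * (s : ℝ) ^ 6 := by ring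
      rw [e2, e3]
      nlinarith) hN1 hA0 h1 h2 h3' h4' (by
      have h5 := num_gen (d := 10) (S := s) (A := A) (B := B) (c := Nat.card (Cr G)) (N := N) (b := b) (a := a) (D := D) (e := m) rfl hS ha ha' hD hDa
        hmR (by rw [hA]; exact le_rfl) (by rw [hNR]) hB0 hB hb
      exact h5)
  exact fun k => Pool.Agent.Helper43.Pln.lc_int (fun i => key i) _ k

/-- the version with `Helper61`'s second leg -/
theorem expl61 (hU : UpX 6) : ∀ (P : Type) [Fintype P] (G : Sh P), Pool.Agent.Helper43.Pln.Plane G → ∀ nab : Dg G → ℤ[X], Cs nab →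
      10 ^ 320 * Pool.Agent.Helper43.Pln.circles G ^ 92 ≤ Pool.Agent.Helper43.Pln.crossings G →
      Pool.Agent.Helper43.Pln.LogConcave G nab := by
  refine expl_gen (B := 10 ^ 47) (b := 19) (by norm_num) (by norm_num) (by norm_num) (by norm_num) (by norm_num) ?_ ?_ (by norm_num) nzx61 hU
  · norm_num
  · rw [← pow_mul, ← pow_add]
    exact pow_le_pow_right₀ (by norm_num) (by norm_num)

end Pool.Agent.Helper43.GD
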