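import Pool.Agent.Helper43.GD.Expl
import Pool.Agent.Helper29.GD.Hi

/-!
# GPOLY with explicit constants, first version
-/

set_option autoImplicit false

namespace Pool.Agent.Helper43.GD

open Polynomial Pool.Agent.Helper85.Exp Pool.Agent.Helper60.EV2 Pool.Agent.Helper2.PD Pool.Agent.Helper57.EV
  Pool.Agent.Helper57.PD Pool.Agent.Helper27.EV2 Pool.Agent.Helper16.PD Pool.Agent.Helper57.GD Pool.Agent.Helper29.GD

theorem upX6 : UpX 6 := by
  intro s P _ G hG hne nab hn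
  have hs := good_pos hG hne
  have hS : (1 : ℝ) ≤ s := by exact_mod_cast hs
  have hS0 : (0 : ℝ) < s := by linarith
  have hS3 : (1 : ℝ) ≤ (s : ℝ) ^ 3 := one_le_pow₀ hS
  have hS6 : (1 : ℝ) ≤ (s : ℝ) ^ 6 := one_le_pow₀ hS
  have hR1 : 1 ≤ RR s := by
    unfold RR
    exact one_le_pow₀ (one_le_mul_of_one_le_of_one_le (by norm_num) hS3)
  have hlR : 0 ≤ Real.log (RR s) := Real.log_nonneg hR1
  have hR0 : 0 < RR s * √(RR s) := by positivity
  have hMs : Ms s ≤ 12 * s ^ 3 := by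
    unfold Ms
    have h1 : s ≤ s ^ 3 := Nat.le_self_pow (by norm_num) s
    have h2 : s * s * s = s ^ 3 := by ring
    omega
  have hMM : Ms s * (Ms s + 1) ≤ 156 * s ^ 6 := by
    have h1 : 1 ≤ s ^ 3 := Nat.one_le_pow _ _ hs
    calc Ms s * (Ms s + 1) ≤ (12 * s ^ 3) * (13 * s ^ 3) := Nat.mul_le_mul hMs (by omega)
      _ = 156 * s ^ 6 := by ring
  have hMMR : ((Ms s * (Ms s + 1) : ℕ) : ℝ) ≤ 156 * (s : ℝ) ^ 6 := by exact_mod_cast hMM
  have hC : 0 < 2 * C0 s := by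
    have := one_le_C0 s
    linarith
  have hlC : Real.log (2 * C0 s) ≤ Real.log (RR s) := by
    apply Real.log_le_log hC
    unfold C0 RR
    have e1 : (s : ℝ) * s * s = (s : ℝ) ^ 3 := by ring
    rw [e1]
    have e2 : (10 ^ 13 * (s : ℝ) ^ 3) ^ 2 = 10 ^ 26 * ((s : ℝ) ^ 3 * (s : ℝ) ^ 3) := by ring
    rw [e2]
    nlinarith
  refine ⟨_, _, ?_, ?_, upZ hG hne hn hR1 (κ := 1 / (256 * (RR s * √(RR s)))) (by positivity) ?_⟩
  · have h0 : (0 : ℝ) ≤ ((Ms s * (Ms s + 1) : ℕ) : ℝ) := Nat.cast_nonneg _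
    calc ((Ms s * (Ms s + 1) : ℕ) : ℝ) * (Real.log (2 * C0 s) + Real.log (RR s))
        ≤ ((Ms s * (Ms s + 1) : ℕ) : ℝ) * (2 * (1 + Real.log (RR s))) := mul_le_mul_of_nonneg_left (by linarith) h0
      _ ≤ (156 * (s : ℝ) ^ 6) * (2 * (1 + Real.log (RR s))) := mul_le_mul_of_nonneg_right hMMR (by positivity)
      _ = 312 * ((s : ℝ) ^ 6 * (1 + Real.log (RR s))) := by ring
      _ ≤ 10 ^ 9 * ((s : ℝ) ^ 6 * (1 + Real.log (RR s))) := mul_le_mul_of_nonneg_right (by norm_num) (by positivity)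
      _ = _ := by ring
  · have h1 : 2 * (Ms s * (Ms s + 1)) ≤ 10 ^ 9 * s ^ 6 := by
      have : 1 ≤ s ^ 6 := Nat.one_le_pow _ _ hs
      omega
    have h2 : ((2 * (Ms s * (Ms s + 1)) : ℕ) : ℝ) ≤ ((10 ^ 9 * s ^ 6 : ℕ) : ℝ) := by exact_mod_cast h1
    refine h2.trans (le_of_eq ?_)
    push_cast
    norm_num
  · rw [one_div, inv_mul_eq_div, div_le_one (by positivity)]
    nlinarith

/-- **GPOLY**, first explicit version. -/
theorem expl_a : ∀ (P : Type) [Fintype P] (G : Sh P), Pool.Agent.Helper43.Pln.Plane G → ∀ nab : Dg G → ℤ[X], Cs nab →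
      10 ^ 320 * Pool.Agent.Helper43.Pln.circles G ^ 92 ≤ Pool.Agent.Helper43.Pln.crossings G →
      Pool.Agent.Helper43.Pln.LogConcave G nab := expl61 upX6

end Pool.Agent.Helper43.GD
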