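import Pool.Agent.Helper43.GD.ExplA
import Pool.Agent.Helper2.GD.NZx

/-!
# GPOLY with explicit constants, second version
-/

set_option autoImplicit false

namespace Pool.Agent.Helper43.GD

open Polynomial Pool.Agent.Helper85.Exp Pool.Agent.Helper60.EV2 Pool.Agent.Helper2.PD Pool.Agent.Helper57.EV
  Pool.Agent.Helper57.PD Pool.Agent.Helper27.EV2 Pool.Agent.Helper16.PD Pool.Agent.Helper57.GD

theorem nzx2 : NZX (4 * 10 ^ 7) 6 := by
  intro s P _ G hG hne nab hn
  exact Pool.Agent.Helper2.GD.nz_expl hG (good_pos hG hne) hne hn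

/-- **GPOLY**, second explicit version. -/
theorem expl_b : ∀ (P : Type) [Fintype P] (G : Sh P), Pool.Agent.Helper43.Pln.Plane G → ∀ nab : Dg G → ℤ[X], Cs nab →
      10 ^ 200 * Pool.Agent.Helper43.Pln.circles G ^ 52 ≤ Pool.Agent.Helper43.Pln.crossings G →
      Pool.Agent.Helper43.Pln.LogConcave G nab := by
  refine expl_gen (B := 4 * 10 ^ 7) (b := 6) (by norm_num) (by norm_num) (by norm_num) (by norm_num) (by norm_num) ?_ ?_
    (by norm_num) nzx2 upX6
  · norm_num
  · have e1 : (10 : ℝ) ^ 173 * (4 * 10 ^ 7) ^ 3 = 64 * 10 ^ 194 := by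
      rw [mul_pow, ← pow_mul, mul_left_comm, ← pow_add]
      norm_num only
    rw [e1]
    calc (64 : ℝ) * 10 ^ 194 ≤ 10 ^ 6 * 10 ^ 194 := mul_le_mul_of_nonneg_right (by norm_num) (by positivity)
      _ = 10 ^ 200 := by rw [← pow_add]

end Pool.Agent.Helper43.GD
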