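import Mathlib

/-!
# The mean difference under averaging of two values, with sources

`Gi p G = ∑ p_i p_j |G_i - G_j|`. One step replaces the values at `l`, `r` by `(1 - a) G_l + a G_r`
and `b G_l + (1 - b) G_r` (plus errors), where `p_l a = p_r b`.
-/

set_option autoImplicit false

namespace Pool.Agent.Helper43.GD

open Finset

variable {ι : Type*} [Fintype ι]

/-- the mean difference -/
noncomputable def Gi (p : ι → ℝ) (G : ι → ℂ) : ℝ := ∑ i, ∑ j, p i * p j * ‖G i - G j‖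

theorem Gi_nonneg {p : ι → ℝ} (hp : ∀ i, 0 ≤ p i) (G : ι → ℂ) : 0 ≤ Gi p G :=
  sum_nonneg fun i _ => sum_nonneg fun j _ => mul_nonneg (mul_nonneg (hp i) (hp j)) (norm_nonneg _)

theorem Gi_perm {p : ι → ℝ} (σ : Equiv.Perm ι) (hσ : ∀ i, p (σ i) = p i) (G : ι → ℂ) :
    Gi p (fun i => G (σ i)) = Gi p G := by
  unfold Gi
  rw [← Equiv.sum_comp σ (fun i => ∑ j, p i * p j * ‖G i - G j‖)]
  refine sum_congr rfl fun i _ => ?_
  rw [← Equiv.sum_comp σ (fun j => p (σ i) * p j * ‖G (σ i) - G j‖)]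
  refine sum_congr rfl fun j _ => ?_
  rw [hσ, hσ]

theorem sum_split [DecidableEq ι] {l r : ι} (h : l ≠ r) (f : ι → ℝ) :
    ∑ i, f i = f l + (f r + ∑ i ∈ (univ.erase l).erase r, f i) := by
  rw [← add_sum_erase _ _ (mem_univ l), ← add_sum_erase (univ.erase l) _ (mem_erase.2 ⟨h.symm, mem_univ r⟩)]

theorem Gi_split [DecidableEq ι] (p : ι → ℝ) {l r : ι} (h : l ≠ r) (G : ι → ℂ) :
    Gi p G = 2 * (p l * p r * ‖G l - G r‖) +
      2 * ∑ k ∈ (univ.erase l).erase r, p k * (p l * ‖G l - G k‖ + p r * ‖G r - G k‖) +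
      ∑ i ∈ (univ.erase l).erase r, ∑ j ∈ (univ.erase l).erase r, p i * p j * ‖G i - G j‖ := by
  unfold Gi
  rw [sum_split h]
  rw [sum_split h (f := fun j => p l * p j * ‖G l - G j‖), sum_split h (f := fun j => p r * p j * ‖G r - G j‖)]
  have e1 : ∑ i ∈ (univ.erase l).erase r, ∑ j, p i * p j * ‖G i - G j‖ =
      ∑ i ∈ (univ.erase l).erase r, p i * (p l * ‖G l - G i‖ + p r * ‖G r - G i‖) +
      ∑ i ∈ (univ.erase l).erase r, ∑ j ∈ (univ.erase l).erase r, p i * p j * ‖G i - G j‖ := by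
    rw [← sum_add_distrib]
    refine sum_congr rfl fun i _ => ?_
    rw [sum_split h, norm_sub_rev (G i) (G l), norm_sub_rev (G i) (G r)]
    ring
  rw [e1]
  have e2 : ∑ k ∈ (univ.erase l).erase r, p k * (p l * ‖G l - G k‖ + p r * ‖G r - G k‖) =
      ∑ k ∈ (univ.erase l).erase r, p l * p k * ‖G l - G k‖ +
        ∑ k ∈ (univ.erase l).erase r, p r * p k * ‖G r - G k‖ := by
    rw [← sum_add_distrib]
    refine sum_congr rfl fun i _ => ?_
    ring
  rw [e2, sub_self, sub_self, norm_zero, norm_sub_rev (G r) (G l)]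
  ring

/-- one step -/
structure IsStep (p : ι → ℝ) (l r : ι) (a b : ℝ) (x y : ℂ) (G G' : ι → ℂ) : Prop where
  ne : l ≠ r
  a0 : 0 ≤ a
  a1 : a ≤ 1
  b0 : 0 ≤ b
  b1 : b ≤ 1
  bal : p l * a = p r * b
  left : G' l = (1 - a) * G l + a * G r + x
  right : G' r = b * G l + (1 - b) * G r + y
  out : ∀ k, k ≠ l → k ≠ r → G' k = G k

variable {p : ι → ℝ} {l r : ι} {a b : ℝ} {x y : ℂ} {G G' : ι → ℂ}

/-- **One step.** -/
theorem IsStep.Gi_le (hp : ∀ i, 0 ≤ p i) (h : IsStep p l r a b x y G G') :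
    Gi p G' ≤ Gi p G - 2 * ((1 - |1 - a - b|) * (p l * p r * ‖G l - G r‖)) +
      2 * ((∑ i, p i) * (p l * ‖x‖ + p r * ‖y‖)) := by
  classical
  rw [Gi_split p h.ne G', Gi_split p h.ne G]
  have hS : ∀ k ∈ (univ.erase l).erase r, G' k = G k := by
    intro k hk
    rw [mem_erase, mem_erase] at hk
    exact h.out k hk.2.1 hk.1
  have e1 : ∑ i ∈ (univ.erase l).erase r, ∑ j ∈ (univ.erase l).erase r, p i * p j * ‖G' i - G' j‖ =
      ∑ i ∈ (univ.erase l).erase r, ∑ j ∈ (univ.erase l).erase r, p i * p j * ‖G i - G j‖ :=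
    sum_congr rfl fun i hi => sum_congr rfl fun j hj => by rw [hS i hi, hS j hj]
  have na : ‖(a : ℂ)‖ = a := by rw [Complex.norm_real, Real.norm_of_nonneg h.a0]
  have nb : ‖(b : ℂ)‖ = b := by rw [Complex.norm_real, Real.norm_of_nonneg h.b0]
  have na' : ‖(1 - a : ℂ)‖ = 1 - a := by
    rw [show (1 - a : ℂ) = ((1 - a : ℝ) : ℂ) by push_cast; rfl, Complex.norm_real,
      Real.norm_of_nonneg (by linarith [h.a1])]
  have nb' : ‖(1 - b : ℂ)‖ = 1 - b := by
    rw [show (1 - b : ℂ) = ((1 - b : ℝ) : ℂ) by push_cast; rfl, Complex.norm_real,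
      Real.norm_of_nonneg (by linarith [h.b1])]
  -- the pair
  have e2 : ‖G' l - G' r‖ ≤ |1 - a - b| * ‖G l - G r‖ + (‖x‖ + ‖y‖) := by
    have : G' l - G' r = ((1 - a - b : ℝ) : ℂ) * (G l - G r) + (x - y) := by
      rw [h.left, h.right]
      push_cast
      ring
    rw [this]
    refine (norm_add_le _ _).trans ?_
    rw [norm_mul, Complex.norm_real, Real.norm_eq_abs]
    have := norm_sub_le x y
    linarith
  -- a third label
  have e3 : ∀ k ∈ (univ.erase l).erase r, p k * (p l * ‖G' l - G' k‖ + p r * ‖G' r - G' k‖) ≤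
      p k * (p l * ‖G l - G k‖ + p r * ‖G r - G k‖) + p k * (p l * ‖x‖ + p r * ‖y‖) := by
    intro k hk
    rw [← mul_add]
    refine mul_le_mul_of_nonneg_left ?_ (hp k)
    rw [hS k hk]
    have f1 : ‖G' l - G k‖ ≤ (1 - a) * ‖G l - G k‖ + a * ‖G r - G k‖ + ‖x‖ := by
      have : G' l - G k = (1 - a) * (G l - G k) + a * (G r - G k) + x := by
        rw [h.left]
        ring
      rw [this]
      refine (norm_add_le _ _).trans ?_
      have := norm_add_le ((1 - a : ℂ) * (G l - G k)) (a * (G r - G k))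
      rw [norm_mul, norm_mul, na, na'] at this
      linarith
    have f2 : ‖G' r - G k‖ ≤ b * ‖G l - G k‖ + (1 - b) * ‖G r - G k‖ + ‖y‖ := by
      have : G' r - G k = b * (G l - G k) + (1 - b) * (G r - G k) + y := by
        rw [h.right]
        ring
      rw [this]
      refine (norm_add_le _ _).trans ?_
      have := norm_add_le ((b : ℂ) * (G l - G k)) ((1 - b) * (G r - G k))
      rw [norm_mul, norm_mul, nb, nb'] at this
      linarith
    have g1 := mul_le_mul_of_nonneg_left f1 (hp l)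
    have g2 := mul_le_mul_of_nonneg_left f2 (hp r)
    have hb := h.bal
    have g3 : p l * ((1 - a) * ‖G l - G k‖ + a * ‖G r - G k‖ + ‖x‖) +
        p r * (b * ‖G l - G k‖ + (1 - b) * ‖G r - G k‖ + ‖y‖) =
        p l * ‖G l - G k‖ + p r * ‖G r - G k‖ + (p l * ‖x‖ + p r * ‖y‖) := by
      linear_combination (‖G r - G k‖ - ‖G l - G k‖) * hb
    linarith
  have e4 := sum_le_sum e3
  rw [sum_add_distrib, ← sum_mul] at e4
  rw [e1, sum_split h.ne p]
  have e5 : p l * p r * ‖G' l - G' r‖ ≤ p l * p r * (|1 - a - b| * ‖G l - G r‖ + (‖x‖ + ‖y‖)) :=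
    mul_le_mul_of_nonneg_left e2 (mul_nonneg (hp l) (hp r))
  have s1 : 0 ≤ p l * (p l * ‖x‖) := mul_nonneg (hp l) (mul_nonneg (hp l) (norm_nonneg _))
  have s2 : 0 ≤ p r * (p r * ‖y‖) := mul_nonneg (hp r) (mul_nonneg (hp r) (norm_nonneg _))
  nlinarith

/-- **The sum over a closed run.** -/
theorem gini {p : ι → ℝ} (hp : ∀ i, 0 ≤ p i) {m : ℕ} {l r : ℕ → ι} {a b : ℕ → ℝ} {x y : ℕ → ℂ}
    {G : ℕ → ι → ℂ} (h : ∀ t < m, IsStep p (l t) (r t) (a t) (b t) (x t) (y t) (G t) (G (t + 1)))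
    (σ : Equiv.Perm ι) (hσ : ∀ i, p (σ i) = p i) (hcl : ∀ i, G m i = G 0 (σ i)) :
    ∑ t ∈ range m, (1 - |1 - a t - b t|) * (p (l t) * p (r t) * ‖G t (l t) - G t (r t)‖) ≤
      (∑ i, p i) * ∑ t ∈ range m, (p (l t) * ‖x t‖ + p (r t) * ‖y t‖) := by
  have key : ∀ n ≤ m, Gi p (G n) + 2 * ∑ t ∈ range n, (1 - |1 - a t - b t|) *
      (p (l t) * p (r t) * ‖G t (l t) - G t (r t)‖) ≤
      Gi p (G 0) + 2 * ((∑ i, p i) * ∑ t ∈ range n, (p (l t) * ‖x t‖ + p (r t) * ‖y t‖)) := by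
    intro n
    induction n with
    | zero => intro _; simp
    | succ n ih =>
      intro hn
      have h1 := ih (by omega)
      have h2 := (h n (by omega)).Gi_le hp
      rw [sum_range_succ, sum_range_succ]
      linarith
  have h1 := key m le_rfl
  have h2 : Gi p (G m) = Gi p (G 0) := by
    have : G m = fun i => G 0 (σ i) := funext hcl
    rw [this, Gi_perm σ hσ]
  linarith

end Pool.Agent.Helper43.GD
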