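import Pool.Agent.Helper43.GD.Wr
import Pool.Agent.Helper43.GD.DetLo
import Pool.Agent.Helper57.PD.FinAll

/-!
# The lower bound for the Conway polynomial of a positive diagram on the positive axis
-/

set_option autoImplicit false

namespace Pool.Agent.Helper43.GD

open Polynomial Pool.Agent.Helper85.Exp Pool.Agent.Helper60.EV2 Pool.Agent.Helper2.PD Pool.Agent.Helper16.PD
  Pool.Agent.Helper41.PD Pool.Agent.Helper27.EV2 Pool.Agent.Helper57.PD Pool.Agent.Helper30.EV3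

variable {P : Type} {G : Sh P} {C : Finset P} {τ : P → ℕ}

theorem kL_pr [Fintype P] (ho : ∀ i, G.op i ≠ i) (κ : Face G → ℤ) (hκ : ∀ i, κ (Lf G i) = κ (Rf G i) + 1) (e : P) :
    κ (Lf G (pr G.nxt G.op e)) = κ (Lf G e) := by
  have h1 := kappa_seifert ho κ hκ (pr G.nxt G.op e)
  unfold pr at h1 ⊢
  rw [Equiv.apply_symm_apply, G.op_op] at h1
  exact h1.symm

/-- **All face values are small if all rows are small** (`s` real). -/
theorem face_le [Fintype P] {n : ℕ} {s : ℝ} (hs0 : 0 < s) (hs1 : s < 1) (H : Cut G.nxt G.op C τ) (ho : ∀ i, G.op i ≠ i)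
    (hG : Pool.Agent.Helper2.PD.Conn G) {κ : Face G → ℤ} (hκ : ∀ i, κ (Lf G i) = κ (Rf G i) + 1) (hn : ∀ f, |κ f| ≤ n)
    {X : List P} (hX : ∀ p, p ∈ X ↔ G.lf p = true) (hnd : X.Nodup) (hord : Pool.Agent.Helper30.EV3.Ord H X)
    (hne : ∀ p ∈ X, H.lab p ≠ H.lab (G.op p)) (c : Face G → ℂ) {b : P} (hb1 : c (Lf G b) = 0) (hb2 : c (Rf G b) = 0)
    (hC : C.Nonempty) (f : Face G) :
    ‖c f‖ ≤ 12 * C.card * (s⁻¹) ^ (10 * n) / (1 - s ^ 2) ^ 2 *
      (X.map fun p => ‖rowv G.nxt G.op s (fun e => c (Lf G e)) (fun e => c (Rf G e)) p‖).sum := by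
  obtain ⟨R, hR⟩ : ∃ R, R = (X.map fun p => ‖rowv G.nxt G.op s (fun e => c (Lf G e)) (fun e => c (Rf G e)) p‖).sum := ⟨_, rfl⟩
  obtain ⟨E, hE⟩ : ∃ E : ℝ, E = (s⁻¹) ^ n := ⟨_, rfl⟩
  have hs : s ≠ 0 := hs0.ne'
  have hs2 : 0 < 1 - s ^ 2 := by nlinarith
  have hinv : 1 ≤ s⁻¹ := (one_le_inv₀ hs0).2 hs1.le
  have hE1 : 1 ≤ E := by
    rw [hE]
    exact one_le_pow₀ hinv
  have hpow : ∀ j : ℤ, |j| ≤ n → s ^ j ≤ E ∧ (s⁻¹) ^ j ≤ E := by
    intro j hj
    rw [abs_le] at hj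
    have h1 : E = (s⁻¹) ^ (n : ℤ) := by rw [hE, zpow_natCast]
    constructor
    · rw [h1, inv_zpow', ]
      exact zpow_le_zpow_right_of_le_one₀ hs0 hs1.le hj.1
    · rw [h1]
      exact zpow_le_zpow_right₀ hinv hj.2
  have hall : ∀ e, e ∈ X ∨ G.op e ∈ X := by
    intro e
    rw [hX, hX]
    cases h : G.lf e with
    | true => exact Or.inl rfl
    | false =>
      right
      rw [G.lf_op e (ho e), h]
      rfl
  have hkb : ∀ e, |κ (Lf G e)| ≤ n ∧ |κ (Lf G e) - 1| ≤ n := by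
    intro e
    refine ⟨hn _, ?_⟩
    have := hκ e
    have h2 := hn (Rf G e)
    rwa [show κ (Lf G e) - 1 = κ (Rf G e) by omega]
  have hk2 : ∀ p ∈ X, κ (Lf G (G.op p)) = κ (Lf G p) - 1 := by
    intro p hp
    have h1 := hκ p
    rw [← corner_N ((hX p).1 hp)]
    omega
  have key : ∀ q : ℝ, (q = s ∨ q = s⁻¹) → ∀ e, ‖Wr q (fun e => κ (Lf G e)) (fun e => c (Lf G e)) (fun e => c (Rf G e)) e‖ ≤
      6 * C.card * E ^ 9 / (1 - s ^ 2) * R := by
    intro q hq e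
    have h1 := wr_le hs0 hs1 hq H hG hnd hord hall hne hC (k := fun e => κ (Lf G e)) (fun e => kL_pr ho κ hκ e) hk2
      (vL := fun e => c (Lf G e)) (vR := fun e => c (Rf G e)) (fun p hp => crn_of ho c ((hX p).1 hp)) hE1 (by
        intro e
        obtain ⟨g1, g2⟩ := hkb e
        have g1' : |-κ (Lf G e)| ≤ n := by rw [abs_neg]; exact g1
        have g2' : |1 - κ (Lf G e)| ≤ n := by rw [abs_sub_comm]; exact g2
        rcases hq with rfl | rfl
        · exact ⟨(hpow _ g1).1, (hpow _ g1').1, (hpow _ g2).1, (hpow _ g2').1⟩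
        · exact ⟨(hpow _ g1).2, (hpow _ g1').2, (hpow _ g2).2, (hpow _ g2').2⟩) e b
    have h2 : Wr q (fun e => κ (Lf G e)) (fun e => c (Lf G e)) (fun e => c (Rf G e)) b = 0 := by
      unfold Wr
      simp only [hb1, hb2, mul_zero, sub_zero]
    rw [h2, sub_zero, ← hR] at h1
    exact h1
  have hR0 : 0 ≤ R := by
    rw [hR]
    refine List.sum_nonneg fun x hx => ?_
    obtain ⟨p, _, rfl⟩ := List.mem_map.1 hx
    exact norm_nonneg _
  have hcp : 0 ≤ 6 * C.card * E ^ 9 / (1 - s ^ 2) * R := by positivity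
  -- the two combinations
  have main : ∀ e, ‖c (Lf G e)‖ ≤ 12 * C.card * E ^ 10 / (1 - s ^ 2) ^ 2 * R ∧ ‖c (Rf G e)‖ ≤ 12 * C.card * E ^ 10 / (1 - s ^ 2) ^ 2 * R := by
    intro e
    obtain ⟨k, hk⟩ : ∃ k, k = κ (Lf G e) := ⟨_, rfl⟩
    obtain ⟨g1, g2⟩ := hkb e
    rw [← hk] at g1 g2
    have a1 := key s (Or.inl rfl) e
    have a2 := key s⁻¹ (Or.inr rfl) e
    unfold Wr at a1 a2
    simp only [← hk] at a1 a2
    have sk : (0 : ℝ) < s ^ (k - 1) := zpow_pos hs0 _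
    have sk' : (0 : ℝ) < (s⁻¹) ^ k := zpow_pos (inv_pos.2 hs0) _
    -- first
    have e1 : ((s ^ k : ℝ) : ℂ) * c (Rf G e) - ((s ^ (k - 1) : ℝ) : ℂ) * c (Lf G e) =
        ((s ^ (k - 1) : ℝ) : ℂ) * (s * c (Rf G e) - c (Lf G e)) := by
      have : s ^ k = s ^ (k - 1) * s := by
        rw [zpow_sub_one₀ hs, inv_mul_cancel_right₀ hs]
      rw [this]
      push_cast
      ring
    have e2 : (((s⁻¹) ^ k : ℝ) : ℂ) * c (Rf G e) - (((s⁻¹) ^ (k - 1) : ℝ) : ℂ) * c (Lf G e) =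
        (((s⁻¹) ^ k : ℝ) : ℂ) * (c (Rf G e) - s * c (Lf G e)) := by
      have : (s⁻¹) ^ (k - 1) = (s⁻¹) ^ k * s := by
        rw [zpow_sub_one₀ (inv_ne_zero hs), inv_inv]
      rw [this]
      push_cast
      ring
    rw [e1, norm_mul, Complex.norm_real, Real.norm_of_nonneg sk.le] at a1
    rw [e2, norm_mul, Complex.norm_real, Real.norm_of_nonneg sk'.le] at a2
    have b1 : ‖(s : ℂ) * c (Rf G e) - c (Lf G e)‖ ≤ E * (6 * C.card * E ^ 9 / (1 - s ^ 2) * R) := by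
      have h1 : (s⁻¹) ^ (k - 1) * s ^ (k - 1) = 1 := by
        rw [← mul_zpow, inv_mul_cancel₀ hs, one_zpow]
      have h2 := (hpow _ g2).2
      calc ‖(s : ℂ) * c (Rf G e) - c (Lf G e)‖ = (s⁻¹) ^ (k - 1) * (s ^ (k - 1) * ‖(s : ℂ) * c (Rf G e) - c (Lf G e)‖) := by
            rw [← mul_assoc, h1, one_mul]
        _ ≤ E * (6 * C.card * E ^ 9 / (1 - s ^ 2) * R) := mul_le_mul h2 a1 (by positivity) (by linarith)
    have b2 : ‖c (Rf G e) - s * c (Lf G e)‖ ≤ E * (6 * C.card * E ^ 9 / (1 - s ^ 2) * R) := by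
      have h1 : s ^ k * (s⁻¹) ^ k = 1 := by
        rw [← mul_zpow, mul_inv_cancel₀ hs, one_zpow]
      have h2 := (hpow _ g1).1
      calc ‖c (Rf G e) - s * c (Lf G e)‖ = s ^ k * ((s⁻¹) ^ k * ‖c (Rf G e) - s * c (Lf G e)‖) := by
            rw [← mul_assoc, h1, one_mul]
        _ ≤ E * (6 * C.card * E ^ 9 / (1 - s ^ 2) * R) := mul_le_mul h2 a2 (by positivity) (by linarith)
    have e3 : 12 * C.card * E ^ 10 / (1 - s ^ 2) ^ 2 * R = 2 * (E * (6 * C.card * E ^ 9 / (1 - s ^ 2) * R)) / (1 - s ^ 2) := by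
      field_simp
      ring
    have nrm : ‖((1 - s ^ 2 : ℝ) : ℂ)‖ = 1 - s ^ 2 := by rw [Complex.norm_real, Real.norm_of_nonneg hs2.le]
    rw [e3]
    constructor
    · rw [le_div_iff₀ hs2]
      have h1 : ((1 - s ^ 2 : ℝ) : ℂ) * c (Lf G e) = s * (c (Rf G e) - s * c (Lf G e)) - (s * c (Rf G e) - c (Lf G e)) := by
        push_cast
        ring
      have h2 : (1 - s ^ 2) * ‖c (Lf G e)‖ ≤ s * ‖c (Rf G e) - s * c (Lf G e)‖ + ‖(s : ℂ) * c (Rf G e) - c (Lf G e)‖ := by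
        rw [← nrm, ← norm_mul, h1]
        refine (norm_sub_le _ _).trans ?_
        rw [norm_mul, Complex.norm_real, Real.norm_of_nonneg hs0.le]
      have h3 : s * ‖c (Rf G e) - s * c (Lf G e)‖ ≤ ‖c (Rf G e) - s * c (Lf G e)‖ := mul_le_of_le_one_left (norm_nonneg _) hs1.le
      linarith
    · rw [le_div_iff₀ hs2]
      have h1 : ((1 - s ^ 2 : ℝ) : ℂ) * c (Rf G e) = (c (Rf G e) - s * c (Lf G e)) - s * (s * c (Rf G e) - c (Lf G e)) := by
        push_cast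
        ring
      have h2 : (1 - s ^ 2) * ‖c (Rf G e)‖ ≤ ‖c (Rf G e) - s * c (Lf G e)‖ + s * ‖(s : ℂ) * c (Rf G e) - c (Lf G e)‖ := by
        rw [← nrm, ← norm_mul, h1]
        refine (norm_sub_le _ _).trans ?_
        rw [norm_mul, Complex.norm_real, Real.norm_of_nonneg hs0.le]
      have h3 : s * ‖(s : ℂ) * c (Rf G e) - c (Lf G e)‖ ≤ ‖(s : ℂ) * c (Rf G e) - c (Lf G e)‖ :=
        mul_le_of_le_one_left (norm_nonneg _) hs1.le
      linarith
  have e4 : (s⁻¹) ^ (10 * n) = E ^ 10 := by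
    rw [hE, ← pow_mul, mul_comm n 10]
  rw [← hR, e4]
  exact face_ind (p := fun f => ‖c f‖ ≤ 12 * C.card * E ^ 10 / (1 - s ^ 2) ^ 2 * R) (fun i => (main i).1) (fun i => (main i).2) f

/-- the number of the special crossings is at most this -/
def Mn (n : ℕ) : ℕ := 8 * n + 4 * (n * n * n)

/-- the constant of the lower bound -/
noncomputable def loC (n : ℕ) (x : ℝ) : ℝ := (1 - x ^ 2) ^ 2 * x ^ (10 * n) / (12 * (n * n * n : ℕ) * Mn n)

open Classical in
/-- **The lower bound for the face determinant.** -/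
theorem lo_det [Fintype P] {n : ℕ} (h : Good n G) (hne : Nonempty P) : ∃ b : P, ∀ (e : Cr G ≃ (fdG h b).Col) (x : ℝ), 0 < x → x < 1 →
    loC n x ^ Mn n ≤ ‖(((fdG h b).A ((x : ℂ) ^ 2) (-(x : ℂ)) (-(x : ℂ))).submatrix id e).det‖ := by
  obtain ⟨C, τ, H, Bs, x0, h1, h2, h3, h5, hx0⟩ := exists_data h hne
  letI : Fintype (Face G) := Fintype.ofFinite _
  refine ⟨G.nxt x0, ?_⟩
  intro e x hx0' hx1
  have hC : C.Nonempty := ⟨x0, hx0⟩
  have hn3 : 1 ≤ n * n * n := le_trans hC.card_pos h1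
  have hM1 : 1 ≤ Mn n := by
    unfold Mn
    omega
  have hM0 : (0 : ℝ) < Mn n := by exact_mod_cast hM1
  have hn0 : (0 : ℝ) < (n * n * n : ℕ) := by exact_mod_cast hn3
  have hs2 : 0 < 1 - x ^ 2 := by nlinarith
  have hlo0 : 0 < loC n x := by
    unfold loC
    positivity
  have hlo1 : loC n x ≤ 1 := by
    unfold loC
    rw [div_le_one (by positivity)]
    have g1 : (1 - x ^ 2) ^ 2 ≤ 1 := by
      have : 0 ≤ x ^ 2 := sq_nonneg x
      nlinarith
    have g2 : x ^ (10 * n) ≤ 1 := pow_le_one₀ hx0'.le hx1.le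
    have g3 : (1 - x ^ 2) ^ 2 * x ^ (10 * n) ≤ 1 := mul_le_one₀ g1 (by positivity) g2
    have g4 : (1 : ℝ) ≤ (n * n * n : ℕ) := by exact_mod_cast hn3
    have g5 : (1 : ℝ) ≤ Mn n := by exact_mod_cast hM1
    have g6 : (1 : ℝ) ≤ 12 * (n * n * n : ℕ) * Mn n := one_le_mul_of_one_le_of_one_le (by linarith) g5
    linarith
  -- the index
  obtain ⟨κ0, hκ0⟩ := exists_kappa h.hc h.ho h.hp
  have hn := kappa_le h.hc h.ho κ0 hκ0 (sg G) (sg_apply G) h.hs
  obtain ⟨κ, hκd⟩ : ∃ κ : Face G → ℤ, κ = fun f => κ0 f - κ0 (Lf G x0) := ⟨_, rfl⟩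
  have hκ : ∀ i, κ (Lf G i) = κ (Rf G i) + 1 := by
    intro i
    have := hκ0 i
    rw [hκd]
    simp only
    omega
  have hκn : ∀ f, |κ f| ≤ n := by
    intro f
    rw [hκd]
    exact hn f _
  have hXmem : ∀ p, p ∈ Pool.Agent.Helper29.PD.crs Bs ↔ G.lf p = true := h5.all
  have hnd : (Pool.Agent.Helper29.PD.crs Bs).Nodup := by
    have h6 := h5.srt
    refine List.Pairwise.imp ?_ h6
    rintro a b hab rfl
    exact lt_irrefl _ hab
  have hcard : Nat.card {x : Cr G // x.1 ∈ spc G C} ≤ (spc G C).card := by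
    have e1 : Nat.card {p : P // p ∈ spc G C} = (spc G C).card := by
      rw [Nat.card_eq_fintype_card, Fintype.card_coe]
    rw [← e1]
    refine Nat.card_le_card_of_injective (fun x : {x : Cr G // x.1 ∈ spc G C} => (⟨x.1.1, x.2⟩ : {p : P // p ∈ spc G C})) ?_
    intro x y hxy
    have h8 : x.1.1 = y.1.1 := congrArg (fun z : {p : P // p ∈ spc G C} => z.1) hxy
    exact Subtype.ext (Subtype.ext h8)
  have hf1 : (fdG h (G.nxt x0)).f₁ = Lf G x0 := by
    show Lf G (G.nxt.symm (G.nxt x0)) = _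
    rw [Equiv.symm_apply_apply]
  have hf2 : (fdG h (G.nxt x0)).f₂ = Rf G x0 := by
    show Rf G (G.nxt.symm (G.nxt x0)) = _
    rw [Equiv.symm_apply_apply]
  have key := fd_lower' (fdG h (G.nxt x0)) (tm_of h H hx0) ((x : ℂ) ^ 2) (-(x : ℂ)) (-(x : ℂ)) hlo0.le (by
    intro c F hc1 hc2 hr hF f hf1' hf2' hf
    rw [hf1] at hc1
    rw [hf2] at hc2
    have hF0 : 0 ≤ F := by
      by_contra hF0
      push Not at hF0
      have hnosp : ∀ p, p ∉ spc G C := by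
        intro p hp
        have hl : G.lf p = true := (Finset.mem_filter.1 hp).2.1
        have := hF ⟨p, hl⟩ hp
        exact absurd ((norm_nonneg _).trans this) (not_le.2 hF0)
      obtain ⟨e', he'⟩ := (fdG h (G.nxt x0)).exists_equiv (tm_of h H hx0)
      have h6 : ¬ (e'.symm ⟨f, hf1', hf2'⟩).1 ∈ spc G C := hnosp _
      apply hf _ h6
      rw [← he' _ h6, Equiv.apply_symm_apply]
    have h6 := face_le hx0' hx1 H h.ho h.hc hκ hκn hXmem hnd (ord_of h5.bxs) (fun p hp => hne_of h5.bxs hp) c hc1 hc2 hC f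
    -- the sum of the rows
    have h7 : ((Pool.Agent.Helper29.PD.crs Bs).map fun p => ‖rowv G.nxt G.op (x : ℂ) (fun e => c (Lf G e)) (fun e => c (Rf G e)) p‖).sum ≤
        (Mn n : ℕ) * F := by
      rw [← List.sum_toFinset _ hnd]
      have e1 : ∑ p ∈ (Pool.Agent.Helper29.PD.crs Bs).toFinset, ‖rowv G.nxt G.op (x : ℂ) (fun e => c (Lf G e)) (fun e => c (Rf G e)) p‖ ≤
          ∑ p ∈ (Pool.Agent.Helper29.PD.crs Bs).toFinset, if p ∈ spc G C then F else 0 := by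
        refine Finset.sum_le_sum fun p hp => ?_
        have hl : G.lf p = true := (hXmem p).1 (List.mem_toFinset.1 hp)
        rw [rowv_eq h.ho c _ hl]
        split_ifs with hsp
        · exact hF ⟨p, hl⟩ hsp
        · have := hr ⟨p, hl⟩ hsp
          have h8 : rw1 G.nxt G.op (Lf G) (Rf G) c (x : ℂ) p = 0 := this
          rw [h8, norm_zero]
      refine e1.trans ?_
      rw [← Finset.sum_filter, Finset.sum_const, nsmul_eq_mul]
      refine mul_le_mul_of_nonneg_right ?_ hF0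
      have h9 : ((Pool.Agent.Helper29.PD.crs Bs).toFinset.filter fun p => p ∈ spc G C).card ≤ (spc G C).card :=
        Finset.card_le_card fun p hp => (Finset.mem_filter.1 hp).2
      exact_mod_cast h9.trans h2
    have h8 : ‖c f‖ ≤ 12 * (n * n * n : ℕ) * (x⁻¹) ^ (10 * n) / (1 - x ^ 2) ^ 2 * ((Mn n : ℕ) * F) := by
      refine h6.trans (mul_le_mul ?_ h7 ?_ (by positivity))
      · refine div_le_div_of_nonneg_right (mul_le_mul_of_nonneg_right ?_ (by positivity)) (by positivity)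
        have : (C.card : ℝ) ≤ (n * n * n : ℕ) := by exact_mod_cast h1
        linarith
      · refine List.sum_nonneg fun x hx => ?_
        obtain ⟨p, _, rfl⟩ := List.mem_map.1 hx
        exact norm_nonneg _
    have h9 := mul_le_mul_of_nonneg_left h8 hlo0.le
    refine h9.trans (le_of_eq ?_)
    unfold loC
    rw [inv_pow]
    have hxp : x ^ (10 * n) ≠ 0 := by positivity
    field_simp) e
  refine le_trans ?_ key
  exact pow_le_pow_of_le_one hlo0.le hlo1 (hcard.trans h2)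

/-- **The lower bound for the Conway polynomial**: `|∇(1/x - x)| ≥ x ^ (-crossings) (loC n x) ^ (Mn n)` for `0 < x < 1`. -/
theorem lo_nab [Fintype P] {n : ℕ} (h : Good n G) (hne : Nonempty P) {nab : Dg G → ℤ[X]} (hn : Cs nab) {x : ℝ} (hx0 : 0 < x)
    (hx1 : x < 1) : (x⁻¹) ^ Nat.card (Cr G) * loC n x ^ Mn n ≤ ‖aeval ((x : ℂ)⁻¹ - x) (nab (allPos G))‖ := by
  classical
  obtain ⟨b, hb⟩ := lo_det h hne
  obtain ⟨α, nab', e, hn', -, -, h1, h2⟩ := one_shadow h b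
  rw [Cs.unique hn hn']
  have hz : (x : ℂ) ≠ 0 := by exact_mod_cast hx0.ne'
  have h3 := h1 x hz
  have h4 := h2 x hz
  rw [h3, norm_mul, norm_zpow, Complex.norm_real, Real.norm_of_nonneg hx0.le, add_comm, zpow_add₀ hx0.ne', mul_assoc] at h4
  have h5 := mul_left_cancel₀ (zpow_ne_zero _ hx0.ne') h4
  have h6 := hb e x hx0 hx1
  rw [← h5] at h6
  have h7 : (x⁻¹) ^ Nat.card (Cr G) * (x ^ (Nat.card (Cr G) : ℤ) * ‖aeval ((x : ℂ)⁻¹ - x) (nab' (allPos G))‖) =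
      ‖aeval ((x : ℂ)⁻¹ - x) (nab' (allPos G))‖ := by
    rw [zpow_natCast, ← mul_assoc, ← mul_pow, inv_mul_cancel₀ hx0.ne', one_pow, one_mul]
  rw [← h7]
  exact mul_le_mul_of_nonneg_left h6 (by positivity)

end Pool.Agent.Helper43.GD
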