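import Pool.Agent.Helper43.GD.One

/-!
# GPOLY with explicit constants: the numbers
-/

set_option autoImplicit false

namespace Pool.Agent.Helper43.GD

open Polynomial Pool.Agent.Helper57.GD

/-- `X log c ≤ c` for all `c ≥ c₀` if it holds for `c₀` -/
theorem log_abs {X c₀ c : ℝ} (hX : 0 ≤ X) (h0 : 0 < c₀) (h1 : X ≤ c₀) (h2 : X * Real.log c₀ ≤ c₀) (hc : c₀ ≤ c) :
    X * Real.log c ≤ c := by
  obtain ⟨u, hu⟩ : ∃ u : ℝ, u = c / c₀ := ⟨_, rfl⟩
  have hcu : c = c₀ * u := by rw [hu]; field_simp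
  have hu1 : 1 ≤ u := by
    rw [hu, le_div_iff₀ h0]
    linarith
  have h3 : Real.log c = Real.log c₀ + Real.log u := by
    rw [hcu, Real.log_mul h0.ne' (by linarith)]
  have h4 : Real.log u ≤ u - 1 := Real.log_le_sub_one_of_pos (by linarith)
  rw [h3, mul_add]
  have h5 : X * Real.log u ≤ X * (u - 1) := mul_le_mul_of_nonneg_left h4 hX
  have h6 : X * (u - 1) ≤ c₀ * (u - 1) := mul_le_mul_of_nonneg_right h1 (by linarith)
  rw [hcu]
  linarith

theorem log_ten_le : Real.log 10 ≤ 19 / 8 := by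
  rw [Real.log_le_iff_le_exp (by norm_num)]
  have h3 : Real.exp (19 / 8) = Real.exp 1 ^ 2 * Real.exp (3 / 8) := by
    rw [← Real.exp_nat_mul, ← Real.exp_add]
    norm_num
  rw [h3]
  have h4 := Real.exp_one_gt_d9
  have h5 := Real.add_one_le_exp (3 / 8 : ℝ)
  nlinarith

/-- **The numbers.** `d = 10`, `β = 1 / (B S ^ b)`, `Q = d ^ 13 S ^ 3`, `K = 256`. -/
theorem num_gen {d S A B : ℝ} {c N b a D e : ℕ} (hd : d = 10) (hS : 1 ≤ S) (ha : 27 ≤ a) (ha' : a ≤ 333) (hD : 6 ≤ D) (hDa : D ≤ a)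
    (hc : d ^ a * S ^ D ≤ c) (hA : A ≤ d ^ 9 * S ^ e * (1 + Real.log ((d ^ 13 * S ^ 3) ^ 2)))
    (hN : (N : ℝ) ≤ d ^ 9 * S ^ e) (hB0 : 1 ≤ B) (hB : d ^ 173 * B ^ 3 ≤ d ^ a) (hb : 28 + e + 3 * b ≤ D) :
    d ^ 33 * EG A N ((d ^ 13 * S ^ 3) ^ 2) c * (256 ^ 3 * (d ^ 13 * S ^ 3) ^ 9 * d ^ 2) ≤ c * (1 / (B * S ^ b)) ^ 3 := by
  have hd1 : (1 : ℝ) ≤ d := by rw [hd]; norm_num
  have hd0 : (0 : ℝ) < d := by linarith
  have hS0 : (0 : ℝ) < S := by linarith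
  have hc00 : 0 < d ^ a * S ^ D := by positivity
  have hc0 : (0 : ℝ) < c := by linarith
  obtain ⟨R, hR⟩ : ∃ R : ℝ, R = (d ^ 13 * S ^ 3) ^ 2 := ⟨_, rfl⟩
  rw [← hR] at hA ⊢
  have hR1 : 1 ≤ R := by
    rw [hR]
    have h1 : (1 : ℝ) ≤ d ^ 13 := one_le_pow₀ hd1
    have h2 : (1 : ℝ) ≤ S ^ 3 := one_le_pow₀ hS
    exact one_le_pow₀ (one_le_mul_of_one_le_of_one_le h1 h2)
  have hlR0 : 0 ≤ Real.log R := Real.log_nonneg hR1
  have hlR : 1 + Real.log R ≤ Real.log c := by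
    have h1 : Real.exp 1 * R ≤ c := by
      have h2 : Real.exp 1 ≤ d := by
        have := Real.exp_one_lt_d9
        rw [hd]
        linarith
      calc Real.exp 1 * R ≤ d * R := mul_le_mul_of_nonneg_right h2 (by linarith)
        _ = d ^ 27 * S ^ 6 := by rw [hR]; ring
        _ ≤ d ^ a * S ^ D := mul_le_mul (pow_le_pow_right₀ hd1 ha) (pow_le_pow_right₀ hS hD) (by positivity) (by positivity)
        _ ≤ c := hc
    rw [Real.le_log_iff_exp_le hc0, Real.exp_add, Real.exp_log (by linarith)]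
    exact h1
  obtain ⟨l, hl⟩ : ∃ l : ℝ, l = Real.log c := ⟨_, rfl⟩
  obtain ⟨x, hx⟩ : ∃ x : ℝ, x = d ^ 9 * S ^ e := ⟨_, rfl⟩
  rw [← hl] at hlR
  rw [← hx] at hA hN
  have hx1 : 1 ≤ x := by
    rw [hx]
    exact one_le_mul_of_one_le_of_one_le (one_le_pow₀ hd1) (one_le_pow₀ hS)
  have hl1 : 1 ≤ l := by linarith
  have hN0 : (0 : ℝ) ≤ N := Nat.cast_nonneg N
  have hE : EG A N R c ≤ d ^ 10 * S ^ e * l := by
    unfold EG
    rw [← hl]
    have h1 : A ≤ x * l := hA.trans (mul_le_mul_of_nonneg_left hlR (by linarith))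
    have h2 : N * l ≤ x * l := mul_le_mul_of_nonneg_right hN (by linarith)
    have h3 : N * Real.log R ≤ x * l := mul_le_mul hN (by linarith) hlR0 (by linarith)
    have h4 : 2 ≤ 2 * (x * l) := by nlinarith
    have h5 : d ^ 10 * S ^ e * l = d * (x * l) := by rw [hx]; ring
    have h6 : 10 * (x * l) = d * (x * l) := by rw [hd]
    have h7 : 0 ≤ x * l := by positivity
    rw [h5, ← h6]
    nlinarith
  obtain ⟨X, hX⟩ : ∃ X : ℝ, X = d ^ 170 * B ^ 3 * S ^ (27 + e + 3 * b) := ⟨_, rfl⟩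
  have hX0 : 0 ≤ X := by rw [hX]; positivity
  have hXc : X * (d ^ 3 * S) ≤ d ^ a * S ^ D := by
    calc X * (d ^ 3 * S) = (d ^ 173 * B ^ 3) * S ^ (28 + e + 3 * b) := by
          rw [hX, show 28 + e + 3 * b = (27 + e + 3 * b) + 1 by omega, pow_succ S, show (173 : ℕ) = 170 + 3 by norm_num, pow_add d]
          generalize d ^ 170 = u
          generalize S ^ (27 + e + 3 * b) = v
          ring
      _ ≤ d ^ a * S ^ D := mul_le_mul hB (pow_le_pow_right₀ hS hb) (by positivity) (by positivity)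
  have hd3 : 1 ≤ d ^ 3 * S := one_le_mul_of_one_le_of_one_le (one_le_pow₀ hd1) hS
  have hlog0 : Real.log (d ^ a * S ^ D) ≤ d ^ 3 * S := by
    rw [Real.log_mul (by positivity) (by positivity), Real.log_pow, Real.log_pow]
    have h1 : Real.log S ≤ S - 1 := Real.log_le_sub_one_of_pos hS0
    have h2 : Real.log d ≤ 19 / 8 := by rw [hd]; exact log_ten_le
    have h3 : (a : ℝ) ≤ 333 := by exact_mod_cast ha'
    have h4 : (D : ℝ) ≤ a := by exact_mod_cast hDa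
    have h5 : (0 : ℝ) ≤ a := Nat.cast_nonneg a
    have h6 : (0 : ℝ) ≤ D := Nat.cast_nonneg D
    have h7 : (a : ℝ) * Real.log d ≤ a * (19 / 8) := mul_le_mul_of_nonneg_left h2 h5
    have h8 : (D : ℝ) * Real.log S ≤ D * (S - 1) := mul_le_mul_of_nonneg_left h1 h6
    have h9 : (D : ℝ) * (S - 1) ≤ a * (S - 1) := mul_le_mul_of_nonneg_right h4 (by linarith)
    have h10 : d ^ 3 * S = 1000 * S := by rw [hd]; norm_num
    rw [h10]
    nlinarith
  have key := log_abs (X := X) (c₀ := d ^ a * S ^ D) (c := c) hX0 hc00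
    ((le_mul_of_one_le_right hX0 hd3).trans hXc) ((mul_le_mul_of_nonneg_left hlog0 hX0).trans hXc) hc
  rw [← hl] at key
  have hBS : 0 < B * S ^ b := by positivity
  rw [one_div, inv_pow, ← div_eq_mul_inv, le_div_iff₀ (by positivity)]
  refine le_trans ?_ key
  have h8 : (256 ^ 3 : ℝ) ≤ d ^ 8 := by rw [hd]; norm_num
  calc d ^ 33 * EG A N R c * (256 ^ 3 * (d ^ 13 * S ^ 3) ^ 9 * d ^ 2) * (B * S ^ b) ^ 3
      ≤ d ^ 33 * (d ^ 10 * S ^ e * l) * (d ^ 8 * (d ^ 13 * S ^ 3) ^ 9 * d ^ 2) * (B * S ^ b) ^ 3 := by gcongr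
    _ = (d ^ 33 * d ^ 10 * d ^ 8 * d ^ 117 * d ^ 2) * B ^ 3 * (S ^ 27 * S ^ e * S ^ (3 * b)) * l := by
        rw [mul_pow, mul_pow, ← pow_mul, ← pow_mul, ← pow_mul, mul_comm b 3]
        norm_num only
        generalize d ^ 117 = u
        generalize S ^ (3 * b) = v
        ring
    _ = X * l := by
        rw [hX, ← pow_add, ← pow_add, ← pow_add, ← pow_add, ← pow_add, ← pow_add]

end Pool.Agent.Helper43.GD
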