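import Pool.Agent.Helper57.GD.Final

/-!
# GPOLY with explicit constants: one diagram, separate parameters
-/

set_option autoImplicit false

namespace Pool.Agent.Helper43.GD

open Polynomial Pool.Agent.Helper57.GD Pool.Agent.Helper57.EV

/-- **One diagram.** `R = Q ^ 2`, `κ = 1 / (K Q ^ 3)`. -/
theorem one_x {c N : ℕ} {p : ℤ[X]} (h : Pn c p) {β T A Q K : ℝ} (hK : 8 ≤ K) (hβ0 : 0 < β) (hβ1 : β ≤ 1) (hT : 1 ≤ T) (hQ : 25 ≤ Q)
    (hQT : T + 800 * K ^ 2 * T ^ 3 ≤ Q ^ 2) (hN : 1 ≤ N) (hA0 : 0 ≤ A)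
    (h1 : NZ β p) (h2 : FZ T p) (h3 : LoZ A N (Q ^ 2) c p) (h4 : UpZ A N (1 / (K * (Q ^ 2 * √(Q ^ 2)))) (Q ^ 2) c p)
    (hnum : 10 ^ 33 * EG A N (Q ^ 2) c * (K ^ 3 * Q ^ 9 * 10 ^ 2) ≤ c * β ^ 3) (k : ℕ) :
    p.coeff k * p.coeff (k + 4) ≤ p.coeff (k + 2) ^ 2 := by
  have hQ0 : (0 : ℝ) < Q := by linarith
  have hsR : √(Q ^ 2) = Q := Real.sqrt_sq hQ0.le
  have hR1 : (1 : ℝ) ≤ Q ^ 2 := by nlinarith
  have hR600 : (600 : ℝ) ≤ Q ^ 2 := by nlinarith
  have hT0 : 0 < T := by linarith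
  have hT3 : T ≤ T ^ 3 := by
    calc T = T ^ 1 := (pow_one T).symm
      _ ≤ T ^ 3 := pow_le_pow_right₀ hT (by norm_num)
  obtain ⟨κ, hκ⟩ : ∃ κ : ℝ, κ = 1 / (K * (Q ^ 2 * √(Q ^ 2))) := ⟨_, rfl⟩
  have hκe : κ = 1 / (K * Q ^ 3) := by
    rw [hκ, hsR]
    congr 1
  have hK0 : 0 < K := by linarith
  have hκ0 : 0 < κ := by rw [hκe]; positivity
  have hQ3 : (1 : ℝ) ≤ Q ^ 3 := one_le_pow₀ (by linarith)
  have hκ1 : κ ≤ 1 / 2 := by
    rw [hκe]
    apply one_div_le_one_div_of_le (by norm_num)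
    nlinarith
  have hκR : κ ^ 2 * (Q ^ 2) ^ 3 = 1 / K ^ 2 := by
    rw [hκe]
    field_simp
  have hE0 : 2 ≤ EG A N (Q ^ 2) c := by
    unfold EG
    have h5 : 0 ≤ Real.log c := Real.log_natCast_nonneg c
    have h6 : 0 ≤ Real.log (Q ^ 2) := Real.log_nonneg hR1
    have h7 : (0 : ℝ) ≤ N := Nat.cast_nonneg N
    have h8 : 0 ≤ 2 * N * Real.log c := by positivity
    have h9 : 0 ≤ N * Real.log (Q ^ 2) := by positivity
    linarith
  have hβ3 : 0 < β ^ 3 := by positivity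
  have hbig : K ^ 3 * 10 ^ 35 * Q ^ 9 ≤ c * β ^ 3 := by
    refine le_trans ?_ hnum
    have : K ^ 3 * 10 ^ 35 * Q ^ 9 = 10 ^ 33 * 1 * (K ^ 3 * Q ^ 9 * 10 ^ 2) := by ring
    rw [this]
    gcongr
    linarith
  have hc1 : 1 ≤ c := by
    by_contra hcon
    have h5 : c = 0 := by omega
    rw [h5, Nat.cast_zero, zero_mul] at hbig
    have : 0 < K ^ 3 * 10 ^ 35 * Q ^ 9 := by positivity
    linarith
  have hcR : (1 : ℝ) ≤ c := by exact_mod_cast hc1
  obtain ⟨E, hE⟩ : ∃ E, E = EG A N (Q ^ 2) c := ⟨_, rfl⟩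
  refine coeff_of h (fun k hk => ?_) k
  refine Pool.Agent.Helper74.GP.coreG (b := β / 10) (κ := κ) (ε := β ^ 2) (E := E) (T := T) (R := Q ^ 2)
    (L := c) ?_ ?_ ?_ ?_ ?_ hk
  · exact ⟨by positivity, by linarith, hκ0, by linarith, by positivity, pow_le_one₀ hβ0.le hβ1, by rw [hE]; linarith⟩
  · refine ⟨hT, hR600, ?_, ?_, ?_⟩
    · have hK2 : 64 ≤ K ^ 2 := by nlinarith
      have : (4 : ℝ) * T ≤ T + 800 * K ^ 2 * T ^ 3 := by nlinarith [mul_nonneg (sub_nonneg.2 hK2) (by positivity : (0 : ℝ) ≤ T ^ 3)]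
      linarith
    · rw [hκR, div_le_one (by positivity)]
      nlinarith
    · rw [hκR]
      have : 800 * T ^ 3 = 1 / K ^ 2 * (800 * K ^ 2 * T ^ 3) := by field_simp
      rw [this]
      apply mul_le_mul_of_nonneg_left _ (by positivity)
      linarith
  · -- `1 ≤ κ b exp E`
    have h5 : (c : ℝ) ≤ Real.exp E := by
      have hc0 : (0 : ℝ) < c := by linarith
      calc (c : ℝ) = Real.exp (Real.log c) := (Real.exp_log hc0).symm
        _ ≤ Real.exp E := by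
          apply Real.exp_le_exp.2
          rw [hE]
          unfold EG
          have hlogc : 0 ≤ Real.log c := Real.log_natCast_nonneg c
          have h6 : 0 ≤ Real.log (Q ^ 2) := Real.log_nonneg hR1
          have h7 : (1 : ℝ) ≤ N := by exact_mod_cast hN
          have h8 : 0 ≤ N * Real.log (Q ^ 2) := by positivity
          nlinarith
    have h6 : 10 * K * Q ^ 3 ≤ c * β := by
      have h7 : Q ^ 3 ≤ Q ^ 9 := pow_le_pow_right₀ (by linarith) (by norm_num)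
      have h8 : c * β ^ 3 ≤ c * β := by
        apply mul_le_mul_of_nonneg_left _ (by linarith)
        calc β ^ 3 ≤ β ^ 1 := pow_le_pow_of_le_one hβ0.le hβ1 (by norm_num)
          _ = β := pow_one β
      have h10 : K ≤ K ^ 3 := by
        calc K = K ^ 1 := (pow_one K).symm
          _ ≤ K ^ 3 := pow_le_pow_right₀ (by linarith) (by norm_num)
      have h9 : 10 * K * Q ^ 3 ≤ K ^ 3 * 10 ^ 35 * Q ^ 9 := by
        apply mul_le_mul _ h7 (by positivity) (by positivity)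
        linarith
      linarith
    have h7 : κ * (β / 10) * Real.exp E = (β * Real.exp E) / (10 * K * Q ^ 3) := by
      rw [hκe]
      field_simp
    rw [h7, one_le_div (by positivity)]
    refine h6.trans ?_
    rw [mul_comm]
    exact mul_le_mul_of_nonneg_left h5 hβ0.le
  · exact { toNice := h.nice
            dist := fun ρ hρ r hr => dist_pos hβ0 hβ1 h h1 hρ hr
            near := fun ρ hρ hs => near_sixty hβ0 h h1 hρ hs
            far := fun ρ hρ => far_of h h2 hρ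
            lo := fun r hr hrR => by rw [hE]; exact lo_half hA0 hR1 hc1 h h3 hr hrR
            hi := fun r θ hr hrR hθ => by
              rw [hE, hκ]
              rw [hκ] at hκ0 hκ1
              exact hi_half hA0 hκ0.le hκ1 hR1 hc1 h h3 h4 hr hrR hθ }
  · rw [hE]
    have e1 : κ ^ 3 * (β / 10) ^ 2 * √(β ^ 2) = β ^ 3 / (K ^ 3 * Q ^ 9 * 10 ^ 2) := by
      rw [Real.sqrt_sq hβ0.le, hκe]
      field_simp
    rw [e1, mul_div_assoc', le_div_iff₀ (by positivity)]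
    exact hnum

end Pool.Agent.Helper43.GD
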