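import Pool.Agent.Helper43.GD.Run
import Pool.Agent.Helper2.PD.Faces

/-!
# The values of an edge function on a connected shadow are close if they are close at every crossing
-/

set_option autoImplicit false

namespace Pool.Agent.Helper43.GD

open Finset Pool.Agent.Helper41.PD Pool.Agent.Helper85.Exp MeasureTheory

variable {P : Type} {G : Sh P}

theorem exists_gap {ι : Type*} (X : Finset ι) {lo δ : ι → ℝ} (hδ : ∀ p ∈ X, 0 ≤ δ p) {u v : ℝ} (h : ∑ p ∈ X, δ p < v - u) :
    ∃ c ∈ Set.Icc u v, ∀ p ∈ X, c ∉ Set.Icc (lo p) (lo p + δ p) := by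
  by_contra hcon
  push Not at hcon
  have hsub : Set.Icc u v ⊆ ⋃ p ∈ X, Set.Icc (lo p) (lo p + δ p) := by
    intro c hc
    obtain ⟨p, hp, h1⟩ := hcon c hc
    exact Set.mem_biUnion hp h1
  have h1 : volume (Set.Icc u v) ≤ ∑ p ∈ X, volume (Set.Icc (lo p) (lo p + δ p)) :=
    (measure_mono hsub).trans (measure_biUnion_finset_le X _)
  simp only [Real.volume_Icc, add_sub_cancel_left] at h1
  rw [← ENNReal.ofReal_sum_of_nonneg hδ] at h1
  have h2 : 0 ≤ ∑ p ∈ X, δ p := sum_nonneg hδ
  rw [ENNReal.ofReal_le_ofReal_iff h2] at h1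
  linarith

theorem path_real (hG : Pool.Agent.Helper2.PD.Conn G) {X : Finset P} (hX : ∀ e, e ∈ X ∨ G.op e ∈ X) {g : P → ℝ} {lo δ : P → ℝ}
    (hδ : ∀ p ∈ X, 0 ≤ δ p)
    (h : ∀ p ∈ X, ∀ e, (e = p ∨ e = G.op p ∨ e = pr G.nxt G.op p ∨ e = pr G.nxt G.op (G.op p)) →
      g e ∈ Set.Icc (lo p) (lo p + δ p)) (e f : P) : g e - g f ≤ ∑ p ∈ X, δ p := by
  by_contra hcon
  push Not at hcon
  obtain ⟨c, hc, hc2⟩ := exists_gap X hδ hcon (lo := lo)
  -- the four edges of a crossing are on the same side
  have side : ∀ p ∈ X, ∀ e e', (e = p ∨ e = G.op p ∨ e = pr G.nxt G.op p ∨ e = pr G.nxt G.op (G.op p)) →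
      (e' = p ∨ e' = G.op p ∨ e' = pr G.nxt G.op p ∨ e' = pr G.nxt G.op (G.op p)) → (g e < c ↔ g e' < c) := by
    intro p hp e e' he he'
    have h1 := h p hp e he
    have h2 := h p hp e' he'
    have h3 := hc2 p hp
    rw [Set.mem_Icc] at h1 h2
    have h4 : c < lo p ∨ lo p + δ p < c := by
      by_contra h5
      push Not at h5
      exact h3 ⟨h5.1, h5.2⟩
    rcases h4 with h4 | h4
    · constructor <;> intro h5 <;> linarith [h1.1, h2.1]
    · exact ⟨fun _ => lt_of_le_of_lt h2.2 h4, fun _ => lt_of_le_of_lt h1.2 h4⟩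
  have hop : ∀ v, (g (G.op v) < c ↔ g v < c) := by
    intro v
    rcases hX v with hv | hv
    · exact side v hv _ _ (Or.inr (Or.inl rfl)) (Or.inl rfl)
    · exact side (G.op v) hv _ _ (Or.inl rfl) (Or.inr (Or.inl (by rw [G.op_op])))
  have hnx : ∀ v, (g (G.nxt v) < c ↔ g v < c) := by
    intro v
    have e1 : pr G.nxt G.op (G.op (G.nxt v)) = v := by
      unfold pr
      rw [G.op_op, Equiv.symm_apply_apply]
    rcases hX (G.nxt v) with hv | hv
    · exact side (G.nxt v) hv _ _ (Or.inl rfl) (Or.inr (Or.inr (Or.inr e1.symm)))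
    · exact side (G.op (G.nxt v)) hv _ _ (Or.inr (Or.inl (by rw [G.op_op]))) (Or.inr (Or.inr (Or.inl e1.symm)))
  -- `g f < c`
  have hf : g f < c := by
    have h1 : g f ≠ c := by
      intro h2
      rcases hX f with hv | hv
      · exact hc2 f hv (by rw [← h2]; exact h f hv f (Or.inl rfl))
      · exact hc2 _ hv (by rw [← h2]; exact h _ hv f (Or.inr (Or.inl (by rw [G.op_op]))))
    exact lt_of_le_of_ne hc.1 h1
  have := hG (fun v => g v < c) ⟨f, hf⟩ hnx hop e
  linarith [hc.2]

/-- **The differences over a connected shadow.** -/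
theorem path (hG : Pool.Agent.Helper2.PD.Conn G) {X : Finset P} (hX : ∀ e, e ∈ X ∨ G.op e ∈ X) {g : P → ℂ} {w a b : P → ℝ}
    {x y : P → ℂ} (hc : ∀ p ∈ X, Cx G.nxt G.op g w a b x y p) (e f : P) :
    ‖g e - g f‖ ≤ ∑ p ∈ X, (‖g (pr G.nxt G.op p) - g (pr G.nxt G.op (G.op p))‖ + 2 * (‖x p‖ + ‖y p‖)) := by
  by_cases h0 : g e - g f = 0
  · rw [h0, norm_zero]
    exact sum_nonneg fun p _ => by positivity
  obtain ⟨u, hu⟩ : ∃ u : ℂ, u = (starRingEnd ℂ) (g e - g f) / ‖g e - g f‖ := ⟨_, rfl⟩
  have hn : (‖g e - g f‖ : ℂ) ≠ 0 := by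
    rw [Complex.ofReal_ne_zero]
    exact norm_ne_zero_iff.2 h0
  have hu1 : ‖u‖ = 1 := by
    rw [hu, norm_div, Complex.norm_conj, Complex.norm_real, norm_norm]
    exact div_self (norm_ne_zero_iff.2 h0)
  have hre : (u * (g e - g f)).re = ‖g e - g f‖ := by
    have h1 : u * (g e - g f) = (‖g e - g f‖ : ℂ) := by
      rw [hu, div_mul_eq_mul_div, Complex.conj_mul', pow_two, mul_div_assoc, div_self hn, mul_one]
    rw [h1, Complex.ofReal_re]
  have hle : ∀ z : ℂ, |(u * z).re| ≤ ‖z‖ := by
    intro z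
    refine (Complex.abs_re_le_norm _).trans ?_
    rw [norm_mul, hu1, one_mul]
  have key := path_real hG hX (g := fun e => (u * g e).re)
    (lo := fun p => min (u * g (pr G.nxt G.op p)).re (u * g (pr G.nxt G.op (G.op p))).re - (‖x p‖ + ‖y p‖))
    (δ := fun p => ‖g (pr G.nxt G.op p) - g (pr G.nxt G.op (G.op p))‖ + 2 * (‖x p‖ + ‖y p‖))
    (fun p _ => by positivity) (by
      intro p hp e' he'
      have hcx := hc p hp
      obtain ⟨A, hA⟩ : ∃ A : ℝ, A = (u * g (pr G.nxt G.op p)).re := ⟨_, rfl⟩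
      obtain ⟨B, hB⟩ : ∃ B : ℝ, B = (u * g (pr G.nxt G.op (G.op p))).re := ⟨_, rfl⟩
      have hAB : |A - B| ≤ ‖g (pr G.nxt G.op p) - g (pr G.nxt G.op (G.op p))‖ := by
        have := hle (g (pr G.nxt G.op p) - g (pr G.nxt G.op (G.op p)))
        rw [mul_sub, Complex.sub_re, ← hA, ← hB] at this
        exact this
      have hxx := hle (x p)
      have hyy := hle (y p)
      have nx := norm_nonneg (x p)
      have ny := norm_nonneg (y p)
      rw [abs_le] at hAB hxx hyy
      have el : (u * g p).re = (1 - a p) * A + a p * B + (u * x p).re := by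
        rw [hcx.left, hA, hB]
        simp only [mul_add, Complex.add_re, Complex.mul_re, Complex.mul_im, Complex.sub_re, Complex.sub_im, Complex.one_re,
          Complex.one_im, Complex.ofReal_re, Complex.ofReal_im, Complex.add_im]
        ring
      have er : (u * g (G.op p)).re = b p * A + (1 - b p) * B + (u * y p).re := by
        rw [hcx.right, hA, hB]
        simp only [mul_add, Complex.add_re, Complex.mul_re, Complex.mul_im, Complex.sub_re, Complex.sub_im, Complex.one_re,
          Complex.one_im, Complex.ofReal_re, Complex.ofReal_im, Complex.add_im]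
        ring
      have a0 := hcx.a0
      have a1 := hcx.a1
      have b0 := hcx.b0
      have b1 := hcx.b1
      simp only [← hA, ← hB, Set.mem_Icc]
      rcases le_total A B with hm | hm
      · rw [min_eq_left hm]
        rcases he' with rfl | rfl | rfl | rfl
        · rw [el]
          constructor <;> nlinarith
        · rw [er]
          constructor <;> nlinarith
        · rw [← hA]
          constructor <;> linarith
        · rw [← hB]
          constructor <;> linarith
      · rw [min_eq_right hm]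
        rcases he' with rfl | rfl | rfl | rfl
        · rw [el]
          constructor <;> nlinarith
        · rw [er]
          constructor <;> nlinarith
        · rw [← hA]
          constructor <;> linarith
        · rw [← hB]
          constructor <;> linarith) e f
  have e1 : (u * g e).re - (u * g f).re = ‖g e - g f‖ := by
    rw [← hre, mul_sub, Complex.sub_re]
  rw [← e1]
  exact key

end Pool.Agent.Helper43.GD
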