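import Pool.Agent.Helper43.GD.Gini
import Pool.Agent.Helper30.EV3.Strand

/-!
# The mean difference of an edge function along the crossings of a cut shadow

`X` is the list of the crossings in the order of the strands. At the crossing `p` the edges `pr p`, `pr (op p)` come in and
the edges `p`, `op p` go out; the values of the edge function `g` are averaged there, up to the errors `x p`, `y p`.
-/

set_option autoImplicit false

namespace Pool.Agent.Helper43.GD

open Finset Pool.Agent.Helper41.PD Pool.Agent.Helper30.EV3

variable {P : Type} {nxt : Equiv.Perm P} {op : P → P} {C : Finset P} {τ : P → ℕ}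

/-- averaging at a crossing -/
structure Cx (nxt : Equiv.Perm P) (op : P → P) (g : P → ℂ) (w : P → ℝ) (a b : P → ℝ) (x y : P → ℂ) (p : P) : Prop where
  a0 : 0 ≤ a p
  a1 : a p ≤ 1
  b0 : 0 ≤ b p
  b1 : b p ≤ 1
  bal : w p * a p = w (op p) * b p
  left : g p = (1 - a p) * g (pr nxt op p) + a p * g (pr nxt op (op p)) + x p
  right : g (op p) = b p * g (pr nxt op p) + (1 - b p) * g (pr nxt op (op p)) + y p

theorem w_lab (H : Cut nxt op C τ) {w : P → ℝ} (hw : ∀ e, w (pr nxt op e) = w e) (e : P) : w (H.lab e) = w e := by
  unfold Cut.lab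
  have key : ∀ n : ℕ, ∀ e, w ((pr nxt op)^[n] e) = w e := by
    intro n
    induction n with
    | zero => intro e; rfl
    | succ n ih =>
      intro e
      rw [Function.iterate_succ_apply, ih, hw]
  exact key _ _

theorem w_arc (H : Cut nxt op C τ) {w : P → ℝ} (hw : ∀ e, w (pr nxt op e) = w e) (l : {x // x ∈ C}) :
    w (arcPerm H l).1 = w l.1 := by
  have h1 : H.lab (arcPerm H l).1 = l.1 := by
    have h2 : (arcPerm H).symm (arcPerm H l) = l := Equiv.symm_apply_apply _ _
    have h3 : (arcPerm H).symm (arcPerm H l) = lb H (arcPerm H l).1 := rfl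
    rw [h3] at h2
    exact congrArg Subtype.val h2
  rw [← w_lab H hw (arcPerm H l).1, h1]

theorem sum_getD {P : Type} (X : List P) (d : P) (f : P → ℝ) : (X.map f).sum = ∑ t ∈ range X.length, f (X.getD t d) := by
  induction X with
  | nil => simp
  | cons q X ih =>
    rw [List.map_cons, List.sum_cons, List.length_cons, sum_range_succ', ih]
    simp [add_comm]

open Classical in
/-- **The sum over all crossings**, as a sum over the positions of the list. -/
theorem run_list (H : Cut nxt op C τ) {X : List P} (hord : Ord H X) (hall : ∀ e, e ∈ X ∨ op e ∈ X)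
    (hne : ∀ p ∈ X, H.lab p ≠ H.lab (op p)) {g : P → ℂ} {w a b : P → ℝ} {x y : P → ℂ} (hw0 : ∀ e, 0 ≤ w e)
    (hw : ∀ e, w (pr nxt op e) = w e) (hc : ∀ p ∈ X, Cx nxt op g w a b x y p) :
    (X.map fun p => (1 - |1 - a p - b p|) * (w p * w (op p) * ‖g (pr nxt op p) - g (pr nxt op (op p))‖)).sum ≤
      (∑ l ∈ C, w l) * (X.map fun p => w p * ‖x p‖ + w (op p) * ‖y p‖).sum := by
  rcases Nat.eq_zero_or_pos X.length with h0 | h0
  · rw [List.length_eq_zero_iff.1 h0]
    simp
  obtain ⟨d, hd⟩ : ∃ d : P, d = X[0] := ⟨_, rfl⟩
  have hget : ∀ t, t < X.length → X.getD t d ∈ X := by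
    intro t ht
    rw [List.getD_eq_getElem _ _ ht]
    exact List.getElem_mem _
  have hsplit : ∀ t, t < X.length → X = X.take t ++ X.getD t d :: X.drop (t + 1) := by
    intro t ht
    rw [List.getD_eq_getElem _ _ ht, ← List.drop_eq_getElem_cons ht, List.take_append_drop]
  have key := gini (ι := {z // z ∈ C}) (p := fun l => w l.1) (fun l => hw0 _) (m := X.length)
    (l := fun t => lb H (X.getD t d)) (r := fun t => lb H (op (X.getD t d))) (a := fun t => a (X.getD t d))
    (b := fun t => b (X.getD t d)) (x := fun t => x (X.getD t d)) (y := fun t => y (X.getD t d))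
    (G := fun t l => g (stt H (fun l => l.1) (X.take t) l)) (by
      intro t ht
      have hmem := hget t ht
      have hcx := hc _ hmem
      have hn := hne _ hmem
      have hcur := cur_at (H := H) (pre := X.take t) (p := X.getD t d) (suf := X.drop (t + 1))
        (by rw [← hsplit t ht]; exact hord) (by rw [← hsplit t ht]; exact hall) (by rw [← hsplit t ht]; exact hne)
      have hstep : stt H (fun l => l.1) (X.take (t + 1)) = stp H (stt H (fun l => l.1) (X.take t)) (X.getD t d) := by
        rw [List.take_succ_eq_append_getElem ht, stt_append, List.getD_eq_getElem _ _ ht]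
        rfl
      refine ⟨fun h => hn (lb_inj.1 h), hcx.a0, hcx.a1, hcx.b0, hcx.b1, ?_, ?_, ?_, ?_⟩
      · show w (H.lab _) * _ = w (H.lab _) * _
        rw [w_lab H hw, w_lab H hw]
        exact hcx.bal
      · show g (stt H (fun l => l.1) (X.take (t + 1)) (lb H (X.getD t d))) = _
        rw [hstep, stp_left, hcur.1, hcur.2]
        exact hcx.left
      · show g (stt H (fun l => l.1) (X.take (t + 1)) (lb H (op (X.getD t d)))) = _
        rw [hstep, stp_right hn, hcur.1, hcur.2]
        exact hcx.right
      · intro k h1 h2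
        show g (stt H (fun l => l.1) (X.take (t + 1)) k) = _
        rw [hstep, stp_of_ne h1 h2])
    (arcPerm H) (fun i => w_arc H hw i) (by
      intro i
      show g (stt H (fun l => l.1) (X.take X.length) i) = g (stt H (fun l => l.1) (X.take 0) (arcPerm H i))
      rw [List.take_length, cur_end' hord hall hne i]
      rfl)
  have hwl : ∀ e, w (lb H e).1 = w e := fun e => w_lab H hw e
  simp only [hwl] at key
  rw [sum_getD X d, sum_getD X d]
  have e2 : ∑ l ∈ C, w l = ∑ l : {z // z ∈ C}, w l.1 := (Finset.sum_coe_sort C w).symm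
  rw [e2]
  refine le_trans (le_of_eq ?_) key
  refine sum_congr rfl fun t ht => ?_
  have ht' := mem_range.1 ht
  have hcur := cur_at (H := H) (pre := X.take t) (p := X.getD t d) (suf := X.drop (t + 1))
    (by rw [← hsplit t ht']; exact hord) (by rw [← hsplit t ht']; exact hall) (by rw [← hsplit t ht']; exact hne)
  rw [hcur.1, hcur.2]

end Pool.Agent.Helper43.GD
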