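import Pool.Agent.Helper43.GD.Path
import Pool.Agent.Helper30.EV3.Low

/-!
# The Wronskians of the face values with the two solutions `q ^ κ`, `q = s, 1 / s`, of the constant equation
-/

set_option autoImplicit false

namespace Pool.Agent.Helper43.GD

open Finset Pool.Agent.Helper41.PD Pool.Agent.Helper85.Exp Pool.Agent.Helper30.EV3

variable {P : Type} {G : Sh P} {C : Finset P} {τ : P → ℕ}

/-- the Wronskian on the edge `e`, `k e` the index of its left face -/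
noncomputable def Wr (q : ℝ) (k : P → ℤ) (vL vR : P → ℂ) (e : P) : ℂ :=
  ((q ^ k e : ℝ) : ℂ) * vR e - ((q ^ (k e - 1) : ℝ) : ℂ) * vL e

theorem wr_cx {q s : ℝ} (hs0 : 0 < s) (hs1 : s < 1) (hq : q = s ∨ q = s⁻¹) {k : P → ℤ} (hk1 : ∀ e, k (pr G.nxt G.op e) = k e)
    {vL vR : P → ℂ} {p : P} (hk2 : k (G.op p) = k p - 1) (hc : Crn G.nxt G.op vL vR p) :
    Cx G.nxt G.op (Wr q k vL vR) (fun e => q ^ (1 - 2 * k e)) (fun _ => s * q) (fun _ => s * q⁻¹)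
      (fun p => ((q ^ k p : ℝ) : ℂ) * rowv G.nxt G.op s vL vR p)
      (fun p => -(((q ^ (k p - 2) : ℝ) : ℂ) * rowv G.nxt G.op s vL vR p)) p := by
  have hq0 : 0 < q := by
    rcases hq with rfl | rfl
    · exact hs0
    · exact inv_pos.2 hs0
  have hq1 : q ≠ 0 := hq0.ne'
  have hs : s ≠ 0 := hs0.ne'
  have hrel : s * q ^ 2 - (1 + s ^ 2) * q + s = 0 := by
    rcases hq with rfl | rfl
    · ring
    · field_simp
      ring
  have hval : (s * q = s ^ 2 ∧ s * q⁻¹ = 1) ∨ (s * q = 1 ∧ s * q⁻¹ = s ^ 2) := by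
    rcases hq with rfl | rfl
    · left
      exact ⟨by ring, mul_inv_cancel₀ hs⟩
    · right
      exact ⟨mul_inv_cancel₀ hs, by rw [inv_inv]; ring⟩
  have hs2 : s ^ 2 ≤ 1 := by nlinarith
  have c1 : ((q : ℝ) : ℂ) ≠ 0 := by exact_mod_cast hq1
  have hrelC : (s : ℂ) * (q : ℂ) ^ 2 - (1 + (s : ℂ) ^ 2) * q + s = 0 := by exact_mod_cast hrel
  have ek1 : ((q ^ (k p - 1) : ℝ) : ℂ) = ((q ^ k p : ℝ) : ℂ) / q := by
    rw [zpow_sub_one₀ hq1]
    push_cast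
    rfl
  have ek2 : ((q ^ (k p - 2) : ℝ) : ℂ) = ((q ^ k p : ℝ) : ℂ) / q ^ 2 := by
    rw [show k p - 2 = k p - 1 - 1 by ring, zpow_sub_one₀ hq1, zpow_sub_one₀ hq1]
    push_cast
    rw [pow_two, div_mul_eq_div_div]
    rfl
  refine ⟨?_, ?_, ?_, ?_, ?_, ?_, ?_⟩
  · positivity
  · rcases hval with h | h <;> rw [h.1]
    exact hs2
  · positivity
  · rcases hval with h | h <;> rw [h.2]
    exact hs2
  · show q ^ (1 - 2 * k p) * (s * q) = q ^ (1 - 2 * k (G.op p)) * (s * q⁻¹)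
    rw [hk2, show 1 - 2 * (k p - 1) = 1 - 2 * k p + 1 + 1 by ring, zpow_add_one₀ hq1, zpow_add_one₀ hq1]
    field_simp
  · -- left
    show Wr q k vL vR p = (1 - ((s * q : ℝ) : ℂ)) * Wr q k vL vR (pr G.nxt G.op p) + ((s * q : ℝ) : ℂ) *
      Wr q k vL vR (pr G.nxt G.op (G.op p)) + ((q ^ k p : ℝ) : ℂ) * rowv G.nxt G.op s vL vR p
    unfold Wr rowv
    rw [hk1, hk1, hk2, show k p - 1 - 1 = k p - 2 by ring, ek1, ek2, hc.W, hc.E, hc.S]
    generalize ((q ^ k p : ℝ) : ℂ) = Q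
    push_cast
    field_simp
    linear_combination (Q * vR (pr G.nxt G.op p)) * hrelC
  · -- right
    show Wr q k vL vR (G.op p) = ((s * q⁻¹ : ℝ) : ℂ) * Wr q k vL vR (pr G.nxt G.op p) + (1 - ((s * q⁻¹ : ℝ) : ℂ)) *
      Wr q k vL vR (pr G.nxt G.op (G.op p)) + -(((q ^ (k p - 2) : ℝ) : ℂ) * rowv G.nxt G.op s vL vR p)
    unfold Wr rowv
    rw [hk1, hk1, hk2, show k p - 1 - 1 = k p - 2 by ring, ek1, ek2, ← hc.N, hc.W, hc.E, hc.S]
    generalize ((q ^ k p : ℝ) : ℂ) = Q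
    push_cast
    field_simp
    linear_combination (-Q * vR (pr G.nxt G.op p)) * hrelC


/-- **The Wronskians are almost constant**, `E` bounds the powers of `q`. -/
theorem wr_le {q s : ℝ} (hs0 : 0 < s) (hs1 : s < 1) (hq : q = s ∨ q = s⁻¹) (H : Cut G.nxt G.op C τ)
    (hG : Pool.Agent.Helper2.PD.Conn G) {X : List P} (hnd : X.Nodup) (hord : Ord H X) (hall : ∀ e, e ∈ X ∨ G.op e ∈ X)
    (hne : ∀ p ∈ X, H.lab p ≠ H.lab (G.op p)) (hC : C.Nonempty) {k : P → ℤ} (hk1 : ∀ e, k (pr G.nxt G.op e) = k e)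
    (hk2 : ∀ p ∈ X, k (G.op p) = k p - 1) {vL vR : P → ℂ} (hc : ∀ p ∈ X, Crn G.nxt G.op vL vR p)
    {E : ℝ} (hE1 : 1 ≤ E) (hE : ∀ e, q ^ k e ≤ E ∧ q ^ (-k e) ≤ E ∧ q ^ (k e - 1) ≤ E ∧ q ^ (1 - k e) ≤ E) (e f : P) :
    ‖Wr q k vL vR e - Wr q k vL vR f‖ ≤ 6 * C.card * E ^ 9 / (1 - s ^ 2) *
      (X.map fun p => ‖rowv G.nxt G.op s vL vR p‖).sum := by
  classical
  have hq0 : 0 < q := by
    rcases hq with rfl | rfl
    · exact hs0
    · exact inv_pos.2 hs0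
  have hs : s ≠ 0 := hs0.ne'
  have hs2 : 0 < 1 - s ^ 2 := by nlinarith
  have hE0 : 0 < E := by linarith
  have hcx : ∀ p ∈ X, _ := fun p hp => wr_cx hs0 hs1 hq hk1 (hk2 p hp) (hc p hp)
  have hw : ∀ e, 0 < q ^ (1 - 2 * k e) := fun e => zpow_pos hq0 _
  have hwe : ∀ e, q ^ (1 - 2 * k e) = q ^ (-k e) * q ^ (1 - k e) := fun e => by
    rw [← zpow_add₀ hq0.ne']
    congr 1
    ring
  have hwle : ∀ e, q ^ (1 - 2 * k e) ≤ E ^ 2 := fun e => by
    rw [hwe, pow_two]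
    exact mul_le_mul (hE e).2.1 (hE e).2.2.2 (zpow_nonneg hq0.le _) hE0.le
  have hwge : ∀ e, 1 ≤ E ^ 2 * q ^ (1 - 2 * k e) := fun e => by
    have h1 : q ^ k e * q ^ (k e - 1) * q ^ (1 - 2 * k e) = 1 := by
      rw [← zpow_add₀ hq0.ne', ← zpow_add₀ hq0.ne', show k e + (k e - 1) + (1 - 2 * k e) = 0 by ring, zpow_zero]
    have h2 : q ^ k e * q ^ (k e - 1) ≤ E ^ 2 := by
      rw [pow_two]
      exact mul_le_mul (hE e).1 (hE e).2.2.1 (zpow_nonneg hq0.le _) hE0.le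
    rw [← h1]
    exact mul_le_mul_of_nonneg_right h2 (hw e).le
  have hcard : (1 : ℝ) ≤ C.card := by exact_mod_cast hC.card_pos
  obtain ⟨R, hR⟩ : ∃ R, R = (X.map fun p => ‖rowv G.nxt G.op s vL vR p‖).sum := ⟨_, rfl⟩
  rw [← hR]
  have sumT : ∀ φ : P → ℝ, (X.map φ).sum = ∑ p ∈ X.toFinset, φ p := fun φ => (List.sum_toFinset φ hnd).symm
  have hR0 : 0 ≤ R := by
    rw [hR, sumT]
    exact sum_nonneg fun p _ => norm_nonneg _
  -- the sum of the differences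
  have h1 := run_list H hord hall hne (fun e => (hw e).le) (fun e => by simp only [hk1]) hcx
  have hab : (1 : ℝ) - |1 - s * q - s * q⁻¹| = 1 - s ^ 2 := by
    have h2 : 1 - s * q - s * q⁻¹ = -(s ^ 2) := by
      rcases hq with rfl | rfl
      · rw [mul_inv_cancel₀ hs]
        ring
      · rw [inv_inv, mul_inv_cancel₀ hs]
        ring
    rw [h2, abs_neg, abs_of_nonneg (sq_nonneg s)]
  rw [sumT, sumT] at h1
  obtain ⟨D, hD⟩ : ∃ D, D = ∑ p ∈ X.toFinset, ‖Wr q k vL vR (pr G.nxt G.op p) - Wr q k vL vR (pr G.nxt G.op (G.op p))‖ := ⟨_, rfl⟩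
  have nx : ∀ p, ‖((q ^ k p : ℝ) : ℂ) * rowv G.nxt G.op s vL vR p‖ ≤ E * ‖rowv G.nxt G.op s vL vR p‖ := by
    intro p
    rw [norm_mul, Complex.norm_real, Real.norm_of_nonneg (zpow_nonneg hq0.le _)]
    exact mul_le_mul_of_nonneg_right (hE p).1 (norm_nonneg _)
  have ny : ∀ p ∈ X, ‖-(((q ^ (k p - 2) : ℝ) : ℂ) * rowv G.nxt G.op s vL vR p)‖ ≤ E * ‖rowv G.nxt G.op s vL vR p‖ := by
    intro p hp
    rw [norm_neg, norm_mul, Complex.norm_real, Real.norm_of_nonneg (zpow_nonneg hq0.le _)]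
    refine mul_le_mul_of_nonneg_right ?_ (norm_nonneg _)
    have := (hE (G.op p)).2.2.1
    rwa [hk2 p hp, show k p - 1 - 1 = k p - 2 by ring] at this
  have h2 : (1 - s ^ 2) * D ≤ E ^ 4 * (C.card * E ^ 2 * (2 * E ^ 3 * R)) := by
    have h3 : (1 - s ^ 2) * D ≤ E ^ 4 * ∑ p ∈ X.toFinset, (1 - |1 - s * q - s * q⁻¹|) * (q ^ (1 - 2 * k p) * q ^ (1 - 2 * k (G.op p)) *
        ‖Wr q k vL vR (pr G.nxt G.op p) - Wr q k vL vR (pr G.nxt G.op (G.op p))‖) := by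
      rw [hD, mul_sum, mul_sum]
      refine sum_le_sum fun p _ => ?_
      rw [hab]
      have h4 : 1 ≤ E ^ 4 * (q ^ (1 - 2 * k p) * q ^ (1 - 2 * k (G.op p))) := by
        have h5 := one_le_mul_of_one_le_of_one_le (hwge p) (hwge (G.op p))
        nlinarith
      have h6 : 0 ≤ (1 - s ^ 2) * ‖Wr q k vL vR (pr G.nxt G.op p) - Wr q k vL vR (pr G.nxt G.op (G.op p))‖ :=
        mul_nonneg hs2.le (norm_nonneg _)
      have h7 := mul_le_mul_of_nonneg_right h4 h6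
      linarith
    refine h3.trans (mul_le_mul_of_nonneg_left (h1.trans ?_) (by positivity))
    have h8 : ∑ l ∈ C, q ^ (1 - 2 * k l) ≤ C.card * E ^ 2 := by
      refine (sum_le_sum fun l _ => hwle l).trans (le_of_eq ?_)
      rw [sum_const, nsmul_eq_mul]
    have h9 : ∑ p ∈ X.toFinset, (q ^ (1 - 2 * k p) * ‖((q ^ k p : ℝ) : ℂ) * rowv G.nxt G.op s vL vR p‖ +
        q ^ (1 - 2 * k (G.op p)) * ‖-(((q ^ (k p - 2) : ℝ) : ℂ) * rowv G.nxt G.op s vL vR p)‖) ≤ 2 * E ^ 3 * R := by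
      rw [hR, sumT, mul_sum]
      refine sum_le_sum fun p hp => ?_
      have g1 := mul_le_mul (hwle p) (nx p) (norm_nonneg _) (by positivity)
      have g2 := mul_le_mul (hwle (G.op p)) (ny p (List.mem_toFinset.1 hp)) (norm_nonneg _) (by positivity)
      nlinarith
    refine mul_le_mul h8 h9 (sum_nonneg fun p _ => ?_) (by positivity)
    exact add_nonneg (mul_nonneg (hw _).le (norm_nonneg _)) (mul_nonneg (hw _).le (norm_nonneg _))
  -- the path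
  have h3 := path hG (X := X.toFinset) (fun e => by simpa using hall e) (fun p hp => hcx p (List.mem_toFinset.1 hp)) e f
  have h4 : ∑ p ∈ X.toFinset, (‖Wr q k vL vR (pr G.nxt G.op p) - Wr q k vL vR (pr G.nxt G.op (G.op p))‖ +
      2 * (‖((q ^ k p : ℝ) : ℂ) * rowv G.nxt G.op s vL vR p‖ + ‖-(((q ^ (k p - 2) : ℝ) : ℂ) * rowv G.nxt G.op s vL vR p)‖)) ≤
      D + 4 * E * R := by
    rw [sum_add_distrib, ← hD, hR, sumT, mul_sum]
    refine add_le_add le_rfl (sum_le_sum fun p hp => ?_)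
    have := nx p
    have := ny p (List.mem_toFinset.1 hp)
    linarith
  refine h3.trans (h4.trans ?_)
  rw [div_mul_eq_mul_div, le_div_iff₀ hs2]
  have h5 : 4 * E * R * (1 - s ^ 2) ≤ 4 * E * R := mul_le_of_le_one_right (by positivity) (by nlinarith)
  have h6 : 4 * E * R ≤ 4 * C.card * E ^ 9 * R := by
    refine mul_le_mul_of_nonneg_right ?_ hR0
    have h7 : E ≤ E ^ 9 := by
      have := pow_le_pow_right₀ hE1 (show 1 ≤ 9 by norm_num)
      rwa [pow_one] at this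
    have h8 : E ≤ C.card * E ^ 9 := h7.trans (le_mul_of_one_le_left (by positivity) hcard)
    linarith
  nlinarith

end Pool.Agent.Helper43.GD
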